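import Pool.Agent.H85.EQ.Borel

/-!
General coding tool: a measurable family of systems of operations on a fixed countable set gives
measurable families of multiplication tables on the natural numbers.
-/

open Polynomial Pool.Agent.H38.EndQ MeasureTheory

namespace Pool.Agent.H85.EQ

noncomputable section

theorem exists_uenc (P : Type) [Countable P] [Infinite P] : Nonempty ((P →₀ ℚ[X]) ≃ ℕ) := by
  have : Countable (P →₀ ℚ[X]) := inferInstance
  have : Infinite (P →₀ ℚ[X]) := inferInstance
  exact nonempty_equiv_of_countable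

/-- A fixed enumeration of the ambient set. -/
def uenc (P : Type) [Countable P] [Infinite P] : (P →₀ ℚ[X]) ≃ ℕ := (exists_uenc P).some

section

variable {X : Type*} {P : Type} [Countable P] [Infinite P] (O : X → Ops P)

/-- Membership of the `n`-th vector in the positive cone. -/
def gp (x : X) (n : ℕ) : Prop := (uenc P).symm n ∈ pc (O x)

/-- Membership of the `n`-th vector in the cone. -/
def gn (x : X) (n : ℕ) : Prop := (uenc P).symm n ∈ (O x).Cn

omit [Infinite P] in
theorem meas_mapDomain [MeasurableSpace X] (f : X → P → P)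
    (hf : ∀ p q, MeasurableSet {x | f x p = q}) (u w : P →₀ ℚ) :
    MeasurableSet {x | w = Finsupp.mapDomain (f x) u} := by
  classical
  have h1 : {x | w = Finsupp.mapDomain (f x) u} =
      ⋂ z : P, (fun x => ∑ p ∈ u.support, if f x p = z then u p else 0) ⁻¹' {w z} := by
    ext x
    have h2 : ∀ z, Finsupp.mapDomain (f x) u z =
        ∑ p ∈ u.support, if f x p = z then u p else 0 := by
      intro z
      rw [Finsupp.mapDomain, Finsupp.sum_apply, Finsupp.sum]
      refine Finset.sum_congr rfl fun p _ => ?_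
      rw [Finsupp.single_apply]
    simp only [Set.mem_iInter, Set.mem_preimage, Set.mem_singleton_iff]
    constructor
    · intro h z
      have h3 : w = Finsupp.mapDomain (f x) u := h
      rw [h3, h2]
    · intro h
      change w = Finsupp.mapDomain (f x) u
      ext z
      rw [h2, h]
  rw [h1]
  refine MeasurableSet.iInter fun z => ?_
  have h3 : Measurable fun x => ∑ p ∈ u.support, if f x p = z then u p else 0 :=
    Finset.measurable_sum _ fun p _ => Measurable.ite (hf p z) measurable_const measurable_const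
  exact h3 (measurableSet_singleton _)

variable {O}

omit [Infinite P] in
theorem gmeas_V [MeasurableSpace X] (hD : ∀ i p, MeasurableSet {x | p ∈ (O x).D i})
    (hf : ∀ i p q, MeasurableSet {x | (O x).f i p = q}) (v : P →₀ ℚ[X]) :
    MeasurableSet {x | v ∈ (O x).V} := by
  have : {x | v ∈ (O x).V} =
      {_x : X | cf 2 v = 0} ∩ ⋂ i : ℕ, ({_x : X | cf (4 * i + 4) v = 0} ∩
        ({_x : X | cf (4 * i + 6) v = 0} ∩
        ((⋂ p : P, ({x : X | p ∈ (O x).D i} ∪
            {_x : X | cf (4 * i + 3) v p = 0})) ∩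
          {x : X | cf (4 * i + 5) v = Finsupp.mapDomain ((O x).f i) (cf (4 * i + 3) v)}))) := by
    ext a
    constructor
    · rintro ⟨h1, h2⟩
      refine ⟨h1, Set.mem_iInter.2 fun i => ?_⟩
      obtain ⟨a1, a2, a3, a4⟩ := h2 i
      refine ⟨a1, a2, Set.mem_iInter.2 fun p => ?_, a4⟩
      by_cases hx : p ∈ (O a).D i
      · exact Or.inl hx
      · exact Or.inr (a3 p hx)
    · rintro ⟨h1, h2⟩
      refine ⟨h1, fun i => ?_⟩
      obtain ⟨a1, a2, a3, a4⟩ := Set.mem_iInter.1 h2 i
      refine ⟨a1, a2, fun p hx => ?_, a4⟩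
      rcases Set.mem_iInter.1 a3 p with h | h
      · exact absurd h hx
      · exact h
  rw [this]
  refine (MeasurableSet.const _).inter (MeasurableSet.iInter fun i => ?_)
  refine (MeasurableSet.const _).inter ((MeasurableSet.const _).inter (MeasurableSet.inter ?_ ?_))
  · exact MeasurableSet.iInter fun p => (hD i p).union (MeasurableSet.const _)
  · exact meas_mapDomain (fun x => (O x).f i) (fun p q => hf i p q) _ _

theorem meas_gn [MeasurableSpace X] (hD : ∀ i p, MeasurableSet {x | p ∈ (O x).D i})
    (hf : ∀ i p q, MeasurableSet {x | (O x).f i p = q}) (n : ℕ) :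
    MeasurableSet {x | gn O x n} := by
  have : {x | gn O x n} = {x | (uenc P).symm n ∈ (O x).V} ∩
      {_x : X | ∀ p, 0 ≤ ev (((uenc P).symm n : P →₀ ℚ[X]) p)} := rfl
  rw [this]
  exact (gmeas_V hD hf _).inter (MeasurableSet.const _)

theorem meas_gp [MeasurableSpace X] (hD : ∀ i p, MeasurableSet {x | p ∈ (O x).D i})
    (hf : ∀ i p q, MeasurableSet {x | (O x).f i p = q}) (n : ℕ) :
    MeasurableSet {x | gp O x n} := by
  have : {x | gp O x n} = {x | gn O x n} ∩
      {_x : X | ((uenc P).symm n : P →₀ ℚ[X]) ≠ 0} := rfl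
  rw [this]
  exact (meas_gn hD hf n).inter (MeasurableSet.const _)

variable (O)

theorem gp_inf (x : X) : {n | gp O x n}.Infinite := by
  refine Set.infinite_of_injective_forall_mem
    (f := fun w : P => (uenc P) ((pe (O x) w : pc (O x)) : P →₀ ℚ[X])) ?_ ?_
  · intro w w' h
    have h1 := (uenc P).injective h
    change (Finsupp.single w (C (1:ℚ)) : P →₀ ℚ[X]) = Finsupp.single w' (C (1:ℚ)) at h1
    exact Finsupp.single_left_injective (by simp : (C (1:ℚ) : ℚ[X]) ≠ 0) h1
  · intro w
    change (uenc P).symm ((uenc P) _) ∈ pc (O x)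
    rw [(uenc P).symm_apply_apply]
    exact (pe (O x) w).2

theorem gn_inf (x : X) : {n | gn O x n}.Infinite := (gp_inf O x).mono fun _ h => h.1

/-- Addition of the ambient set transported to the natural numbers. -/
def gad (P : Type) [Countable P] [Infinite P] (i j : ℕ) : ℕ :=
  (uenc P) ((uenc P).symm i + (uenc P).symm j)

/-- The table of the positive cone. -/
def gbp : X → ℕ → ℕ → ℕ := fun x => tab (gp O) (gad P) x

/-- The table of the cone. -/
def gbn : X → ℕ → ℕ → ℕ := fun x => tab (gn O) (gad P) x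

variable {O}

theorem meas_gbp [MeasurableSpace X] (hD : ∀ i p, MeasurableSet {x | p ∈ (O x).D i})
    (hf : ∀ i p q, MeasurableSet {x | (O x).f i p = q}) : Measurable (gbp O) :=
  meas_tab (meas_gp hD hf) (gp_inf O) (gad P)

theorem meas_gbn [MeasurableSpace X] (hD : ∀ i p, MeasurableSet {x | p ∈ (O x).D i})
    (hf : ∀ i p q, MeasurableSet {x | (O x).f i p = q}) : Measurable (gbn O) :=
  meas_tab (meas_gn hD hf) (gn_inf O) (gad P)

variable (O)

/-- The enumeration of the positive cone. -/
def gep (x : X) : ℕ ≃ Multiplicative (pc (O x)) where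
  toFun i := Multiplicative.ofAdd ⟨(uenc P).symm (nt (gp O) x i), nt_mem (gp_inf O) x i⟩
  invFun v := cnt (gp O) x ((uenc P) (v.toAdd : P →₀ ℚ[X]))
  left_inv i := by
    change cnt (gp O) x ((uenc P) ((uenc P).symm (nt (gp O) x i))) = i
    rw [(uenc P).apply_symm_apply, cnt_nt (gp_inf O)]
  right_inv v := by
    apply Multiplicative.toAdd.injective
    apply Subtype.ext
    change (uenc P).symm (nt (gp O) x (cnt (gp O) x ((uenc P) (v.toAdd : P →₀ ℚ[X])))) =
      (v.toAdd : P →₀ ℚ[X])
    rw [nt_cnt, (uenc P).symm_apply_apply]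
    change (uenc P).symm ((uenc P) (v.toAdd : P →₀ ℚ[X])) ∈ pc (O x)
    rw [(uenc P).symm_apply_apply]
    exact v.toAdd.2

/-- The enumeration of the cone. -/
def gen (x : X) : ℕ ≃ Multiplicative (O x).Cn where
  toFun i := Multiplicative.ofAdd ⟨(uenc P).symm (nt (gn O) x i), nt_mem (gn_inf O) x i⟩
  invFun v := cnt (gn O) x ((uenc P) (v.toAdd : P →₀ ℚ[X]))
  left_inv i := by
    change cnt (gn O) x ((uenc P) ((uenc P).symm (nt (gn O) x i))) = i
    rw [(uenc P).apply_symm_apply, cnt_nt (gn_inf O)]
  right_inv v := by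
    apply Multiplicative.toAdd.injective
    apply Subtype.ext
    change (uenc P).symm (nt (gn O) x (cnt (gn O) x ((uenc P) (v.toAdd : P →₀ ℚ[X])))) =
      (v.toAdd : P →₀ ℚ[X])
    rw [nt_cnt, (uenc P).symm_apply_apply]
    change (uenc P).symm ((uenc P) (v.toAdd : P →₀ ℚ[X])) ∈ (O x).Cn
    rw [(uenc P).symm_apply_apply]
    exact v.toAdd.2

theorem table_gep (x : X) : table (gep O x).commSemigroup = gbp O x := rfl

theorem table_gen (x : X) : table (gen O x).commSemigroup = gbn O x := rfl

end

end

end Pool.Agent.H85.EQ
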