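import Mathlib

/-!
Measurable enumeration of measurable families of infinite subsets of the natural numbers.
-/

open MeasureTheory

namespace Pool.Agent.H85.EQ

noncomputable section

open Classical in
/-- Number of elements below `n`. -/
def cnt {X : Type*} (p : X → ℕ → Prop) (x : X) (n : ℕ) : ℕ := Nat.count (p x) n

/-- The elements in increasing order. -/
def nt {X : Type*} (p : X → ℕ → Prop) (x : X) (n : ℕ) : ℕ := Nat.nth (p x) n

variable {X : Type*} {p : X → ℕ → Prop}

theorem meas_cnt [MeasurableSpace X] (hp : ∀ n, MeasurableSet {x | p x n}) (n : ℕ) :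
    Measurable fun x => cnt p x n := by
  classical
  induction n with
  | zero =>
    have : (fun x : X => cnt p x 0) = fun _ => 0 := by
      funext x
      simp [cnt]
    rw [this]
    exact measurable_const
  | succ n ih =>
    have : (fun x : X => cnt p x (n + 1)) = fun x => cnt p x n + if p x n then 1 else 0 := by
      funext x
      simp only [cnt, Nat.count_succ]
    rw [this]
    exact ih.add (Measurable.ite (hp n) measurable_const measurable_const)

theorem nt_mem (hinf : ∀ x, {n | p x n}.Infinite) (x : X) (n : ℕ) : p x (nt p x n) :=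
  Nat.nth_mem_of_infinite (hinf x) n

theorem cnt_nt (hinf : ∀ x, {n | p x n}.Infinite) (x : X) (n : ℕ) : cnt p x (nt p x n) = n := by
  classical
  unfold cnt nt
  exact Nat.count_nth_of_infinite (hinf x) n

theorem nt_cnt (x : X) (n : ℕ) (h : p x n) : nt p x (cnt p x n) = n := by
  classical
  unfold cnt nt
  exact Nat.nth_count h

theorem meas_nt [MeasurableSpace X] (hp : ∀ n, MeasurableSet {x | p x n}) (hinf : ∀ x, {n | p x n}.Infinite)
    (n : ℕ) : Measurable fun x => nt p x n := by
  refine measurable_to_countable' fun m => ?_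
  have : (fun x => nt p x n) ⁻¹' {m} = {x | p x m} ∩ (fun x => cnt p x m) ⁻¹' {n} := by
    ext x
    simp only [Set.mem_preimage, Set.mem_singleton_iff, Set.mem_inter_iff, Set.mem_ofPred_eq]
    constructor
    · rintro rfl
      exact ⟨nt_mem hinf x n, cnt_nt hinf x n⟩
    · rintro ⟨h1, rfl⟩
      exact nt_cnt x m h1
  rw [this]
  exact (hp m).inter (meas_cnt hp m (measurableSet_singleton n))

/-- The table of an operation restricted to the sets `p x`. -/
def tab (p : X → ℕ → Prop) (m : ℕ → ℕ → ℕ) (x : X) (i j : ℕ) : ℕ :=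
  cnt p x (m (nt p x i) (nt p x j))

theorem meas_comp [MeasurableSpace X] (f : X → ℕ) (g : ℕ → X → ℕ) (hf : Measurable f) (hg : ∀ n, Measurable (g n)) :
    Measurable fun x => g (f x) x := by
  refine measurable_to_countable' fun m => ?_
  have : (fun x => g (f x) x) ⁻¹' {m} = ⋃ n, (f ⁻¹' {n} ∩ g n ⁻¹' {m}) := by
    ext x
    simp
  rw [this]
  exact MeasurableSet.iUnion fun n =>
    (hf (measurableSet_singleton n)).inter (hg n (measurableSet_singleton m))

theorem meas_tab [MeasurableSpace X] (hp : ∀ n, MeasurableSet {x | p x n}) (hinf : ∀ x, {n | p x n}.Infinite)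
    (m : ℕ → ℕ → ℕ) : Measurable fun x => tab p m x := by
  refine measurable_pi_iff.2 fun i => measurable_pi_iff.2 fun j => ?_
  refine meas_comp (fun x => m (nt p x i) (nt p x j)) (fun n x => cnt p x n) ?_ (meas_cnt hp)
  have h1 : Measurable fun x => (nt p x i, nt p x j) := (meas_nt hp hinf i).prodMk (meas_nt hp hinf j)
  have h2 : Measurable fun z : ℕ × ℕ => m z.1 z.2 := Measurable.of_discrete
  exact h2.comp h1

end

end Pool.Agent.H85.EQ
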