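import Pool.Agent.H85.EQ.Reals
import Pool.Agent.H85.EQ.Table

/-!
The cones of sequences of reals as measurable families of multiplication tables on the natural
numbers.
-/

open Polynomial Pool.Agent.H38.EndQ MeasureTheory

namespace Pool.Agent.H85.EQ

noncomputable section

/-- The ambient countable set. -/
abbrev U : Type := Option ℕ →₀ ℚ[X]

instance : Countable ℚ[X] := by
  rw [← Cardinal.mk_le_aleph0_iff]
  exact (Polynomial.cardinalMk_le_max).trans (max_le Cardinal.mk_le_aleph0 le_rfl)

theorem exists_enc : Nonempty (U ≃ ℕ) := by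
  have : Countable U := inferInstance
  have : Infinite U := inferInstance
  exact nonempty_equiv_of_countable

/-- A fixed enumeration of the ambient set. -/
def enc : U ≃ ℕ := exists_enc.some

/-- Membership of the `n`-th vector in the positive cone. -/
def pp (a : ℕ → ℕ → Bool) (n : ℕ) : Prop := enc.symm n ∈ pc (ro a)

/-- Membership of the `n`-th vector in the cone. -/
def pn (a : ℕ → ℕ → Bool) (n : ℕ) : Prop := enc.symm n ∈ (ro a).Cn

theorem meas_D (i : ℕ) (z : Option ℕ) : MeasurableSet {a : ℕ → ℕ → Bool | z ∈ (ro a).D i} := by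
  match i with
  | 0 =>
    have : {a : ℕ → ℕ → Bool | z ∈ (ro a).D 0} = Set.univ := by
      ext a
      exact ⟨fun _ => trivial, fun _ => trivial⟩
    rw [this]
    exact MeasurableSet.univ
  | 1 => exact MeasurableSet.const (z = none)
  | k + 2 =>
    cases z with
    | none =>
      have : {a : ℕ → ℕ → Bool | (none : Option ℕ) ∈ (ro a).D (k + 2)} = ∅ := by
        ext a
        constructor
        · rintro ⟨w, hw, _⟩
          simp at hw
        · intro h
          exact h.elim
      rw [this]
      exact MeasurableSet.empty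
    | some w =>
      have : {a : ℕ → ℕ → Bool | (some w : Option ℕ) ∈ (ro a).D (k + 2)} =
          (fun a : ℕ → ℕ → Bool => a w (k / 2)) ⁻¹' {decide (k % 2 = 0)} := by
        ext a
        constructor
        · rintro ⟨w', hw', h⟩
          have : w = w' := by simpa using hw'
          subst this
          exact h
        · intro h
          exact ⟨w, rfl, h⟩
      rw [this]
      have h1 : Measurable fun a : ℕ → ℕ → Bool => a w (k / 2) :=
        (measurable_pi_apply (k / 2)).comp (measurable_pi_apply w)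
      exact h1 (measurableSet_singleton _)

theorem meas_V (v : U) : MeasurableSet {a : ℕ → ℕ → Bool | v ∈ (ro a).V} := by
  have : {a : ℕ → ℕ → Bool | v ∈ (ro a).V} =
      {_a : ℕ → ℕ → Bool | cf 2 v = 0} ∩ ⋂ i : ℕ, ({_a : ℕ → ℕ → Bool | cf (4 * i + 4) v = 0} ∩
        ({_a : ℕ → ℕ → Bool | cf (4 * i + 6) v = 0} ∩
        ((⋂ x : Option ℕ, ({a : ℕ → ℕ → Bool | x ∈ (ro a).D i} ∪
            {_a : ℕ → ℕ → Bool | cf (4 * i + 3) v x = 0})) ∩
          {_a : ℕ → ℕ → Bool | cf (4 * i + 5) v = Finsupp.mapDomain (oF i) (cf (4 * i + 3) v)}))) := by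
    ext a
    constructor
    · rintro ⟨h1, h2⟩
      refine ⟨h1, Set.mem_iInter.2 fun i => ?_⟩
      obtain ⟨a1, a2, a3, a4⟩ := h2 i
      refine ⟨a1, a2, Set.mem_iInter.2 fun x => ?_, a4⟩
      by_cases hx : x ∈ (ro a).D i
      · exact Or.inl hx
      · exact Or.inr (a3 x hx)
    · rintro ⟨h1, h2⟩
      refine ⟨h1, fun i => ?_⟩
      obtain ⟨a1, a2, a3, a4⟩ := Set.mem_iInter.1 h2 i
      refine ⟨a1, a2, fun x hx => ?_, a4⟩
      rcases Set.mem_iInter.1 a3 x with h | h
      · exact absurd h hx
      · exact h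
  rw [this]
  refine (MeasurableSet.const _).inter (MeasurableSet.iInter fun i => ?_)
  refine (MeasurableSet.const _).inter ((MeasurableSet.const _).inter (MeasurableSet.inter ?_
    (MeasurableSet.const _)))
  exact MeasurableSet.iInter fun x => (meas_D i x).union (MeasurableSet.const _)

theorem meas_pn (n : ℕ) : MeasurableSet {a | pn a n} := by
  have : {a | pn a n} = {a : ℕ → ℕ → Bool | enc.symm n ∈ (ro a).V} ∩
      {_a : ℕ → ℕ → Bool | ∀ x, 0 ≤ ev ((enc.symm n : U) x)} := rfl
  rw [this]
  exact (meas_V _).inter (MeasurableSet.const _)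

theorem meas_pp (n : ℕ) : MeasurableSet {a | pp a n} := by
  have : {a | pp a n} = {a | pn a n} ∩ {_a : ℕ → ℕ → Bool | (enc.symm n : U) ≠ 0} := rfl
  rw [this]
  exact (meas_pn n).inter (MeasurableSet.const _)

theorem pp_inf (a : ℕ → ℕ → Bool) : {n | pp a n}.Infinite := by
  refine Set.infinite_of_injective_forall_mem (f := fun w : ℕ => enc ((pe (ro a) (some w) : pc (ro a)) : U))
    ?_ ?_
  · intro w w' h
    have h1 := enc.injective h
    change (Finsupp.single (some w) (C (1:ℚ)) : U) = Finsupp.single (some w') (C (1:ℚ)) at h1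
    have h2 := Finsupp.single_left_injective (by simp : (C (1:ℚ) : ℚ[X]) ≠ 0) h1
    exact Option.some_injective _ h2
  · intro w
    change enc.symm (enc _) ∈ pc (ro a)
    rw [enc.symm_apply_apply]
    exact (pe (ro a) (some w)).2

theorem pn_inf (a : ℕ → ℕ → Bool) : {n | pn a n}.Infinite :=
  (pp_inf a).mono fun _ h => h.1

/-- Addition of the ambient set transported to the natural numbers. -/
def ad (i j : ℕ) : ℕ := enc (enc.symm i + enc.symm j)

/-- The table of the positive cone. -/
def bp : (ℕ → ℕ → Bool) → ℕ → ℕ → ℕ := fun a => tab pp ad a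

/-- The table of the cone. -/
def bn : (ℕ → ℕ → Bool) → ℕ → ℕ → ℕ := fun a => tab pn ad a

theorem meas_bp : Measurable bp := meas_tab meas_pp pp_inf ad

theorem meas_bn : Measurable bn := meas_tab meas_pn pn_inf ad

/-- The enumeration of the positive cone. -/
def ep (a : ℕ → ℕ → Bool) : ℕ ≃ Multiplicative (pc (ro a)) where
  toFun i := Multiplicative.ofAdd ⟨enc.symm (nt pp a i), nt_mem pp_inf a i⟩
  invFun v := cnt pp a (enc (v.toAdd : U))
  left_inv i := by
    change cnt pp a (enc (enc.symm (nt pp a i))) = i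
    rw [enc.apply_symm_apply, cnt_nt pp_inf]
  right_inv v := by
    apply Multiplicative.toAdd.injective
    apply Subtype.ext
    change enc.symm (nt pp a (cnt pp a (enc (v.toAdd : U)))) = (v.toAdd : U)
    rw [nt_cnt, enc.symm_apply_apply]
    change enc.symm (enc (v.toAdd : U)) ∈ pc (ro a)
    rw [enc.symm_apply_apply]
    exact v.toAdd.2

/-- The enumeration of the cone. -/
def en (a : ℕ → ℕ → Bool) : ℕ ≃ Multiplicative (ro a).Cn where
  toFun i := Multiplicative.ofAdd ⟨enc.symm (nt pn a i), nt_mem pn_inf a i⟩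
  invFun v := cnt pn a (enc (v.toAdd : U))
  left_inv i := by
    change cnt pn a (enc (enc.symm (nt pn a i))) = i
    rw [enc.apply_symm_apply, cnt_nt pn_inf]
  right_inv v := by
    apply Multiplicative.toAdd.injective
    apply Subtype.ext
    change enc.symm (nt pn a (cnt pn a (enc (v.toAdd : U)))) = (v.toAdd : U)
    rw [nt_cnt, enc.symm_apply_apply]
    change enc.symm (enc (v.toAdd : U)) ∈ (ro a).Cn
    rw [enc.symm_apply_apply]
    exact v.toAdd.2

/-- The multiplication table of a structure on the natural numbers. -/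
def table (m : CommSemigroup ℕ) : ℕ → ℕ → ℕ := fun i j => m.toSemigroup.toMul.mul i j

theorem table_ep (a : ℕ → ℕ → Bool) : table (ep a).commSemigroup = bp a := rfl

theorem table_en (a : ℕ → ℕ → Bool) : table (en a).commSemigroup = bn a := rfl

theorem table_inj {m n : CommSemigroup ℕ} (h : table m = table n) : m = n := by
  apply CommSemigroup.ext
  exact h

theorem transport_pos {K M : Type} [CommSemigroup M] (e : K ≃ M) (h : EndIsPosRat M) :
    @EndIsPosRat K e.commSemigroup := by
  let _ : CommSemigroup K := e.commSemigroup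
  let E : K ≃* M := e.mulEquiv
  obtain ⟨g⟩ := h
  exact ⟨(endCongr E).trans g⟩

theorem transport_nonneg {K M : Type} [CommSemigroup M] (e : K ≃ M) (h : EndIsNonnegRat M) :
    @EndIsNonnegRat K e.commSemigroup := by
  let _ : CommSemigroup K := e.commSemigroup
  let E : K ≃* M := e.mulEquiv
  obtain ⟨g⟩ := h
  exact ⟨(endCongr E).trans g⟩

/-- The solution attached to an injective sequence of reals. -/
def sp (a : ℕ → ℕ → Bool) (ha : Function.Injective a) : SolPos ℕ :=
  ⟨(ep a).commSemigroup, transport_pos (ep a) (pc_sol a ha)⟩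

/-- The solution attached to an injective sequence of reals. -/
def sn (a : ℕ → ℕ → Bool) (ha : Function.Injective a) : SolNonneg ℕ :=
  ⟨(en a).commSemigroup, transport_nonneg (en a) (cn_sol a ha)⟩

theorem sp_iso (a b : ℕ → ℕ → Bool) (ha : Function.Injective a) (hb : Function.Injective b) :
    (isoPos ℕ).r (sp a ha) (sp b hb) ↔ Set.range a = Set.range b := by
  let EA : @MulEquiv ℕ (Multiplicative (pc (ro a))) (sp a ha).1.toSemigroup.toMul _ :=
    (ep a).mulEquiv
  let EB : @MulEquiv ℕ (Multiplicative (pc (ro b))) (sp b hb).1.toSemigroup.toMul _ :=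
    (ep b).mulEquiv
  constructor
  · rintro ⟨f⟩
    let g : Multiplicative (pc (ro a)) ≃* Multiplicative (pc (ro b)) :=
      @MulEquiv.trans _ _ _ _ (sp b hb).1.toSemigroup.toMul _
        (@MulEquiv.trans _ _ _ _ (sp a ha).1.toSemigroup.toMul (sp b hb).1.toSemigroup.toMul
          (@MulEquiv.symm _ _ (sp a ha).1.toSemigroup.toMul _ EA) f) EB
    exact Set.Subset.antisymm (pc_subset a b hb g.toMulHom) (pc_subset b a ha g.symm.toMulHom)
  · intro h
    have h1 : ∀ i, ∃ j, b j = a i := fun i => by
      have : a i ∈ Set.range b := h ▸ ⟨i, rfl⟩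
      exact this
    have h2 : ∀ j, ∃ i, a i = b j := fun j => by
      have : b j ∈ Set.range a := h ▸ ⟨j, rfl⟩
      exact this
    choose σ hσ using h1
    choose ρ hρ using h2
    let e : ℕ ≃ ℕ := ⟨σ, ρ, fun i => ha (by rw [hρ, hσ]), fun j => hb (by rw [hσ, hρ])⟩
    obtain ⟨g⟩ := pc_iso a b e hσ
    exact ⟨@MulEquiv.trans _ _ _ (sp a ha).1.toSemigroup.toMul _ (sp b hb).1.toSemigroup.toMul
      (@MulEquiv.trans _ _ _ (sp a ha).1.toSemigroup.toMul _ _ EA g)
      (@MulEquiv.symm _ _ (sp b hb).1.toSemigroup.toMul _ EB)⟩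

theorem sn_iso (a b : ℕ → ℕ → Bool) (ha : Function.Injective a) (hb : Function.Injective b) :
    (isoNonneg ℕ).r (sn a ha) (sn b hb) ↔ Set.range a = Set.range b := by
  let EA : @MulEquiv ℕ (Multiplicative (ro a).Cn) (sn a ha).1.toSemigroup.toMul _ :=
    (en a).mulEquiv
  let EB : @MulEquiv ℕ (Multiplicative (ro b).Cn) (sn b hb).1.toSemigroup.toMul _ :=
    (en b).mulEquiv
  constructor
  · rintro ⟨f⟩
    let g : Multiplicative (ro a).Cn ≃* Multiplicative (ro b).Cn :=
      @MulEquiv.trans _ _ _ _ (sn b hb).1.toSemigroup.toMul _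
        (@MulEquiv.trans _ _ _ _ (sn a ha).1.toSemigroup.toMul (sn b hb).1.toSemigroup.toMul
          (@MulEquiv.symm _ _ (sn a ha).1.toSemigroup.toMul _ EA) f) EB
    exact Set.Subset.antisymm (cn_subset a b hb g.toMulHom g.injective)
      (cn_subset b a ha g.symm.toMulHom g.symm.injective)
  · intro h
    have h1 : ∀ i, ∃ j, b j = a i := fun i => by
      have : a i ∈ Set.range b := h ▸ ⟨i, rfl⟩
      exact this
    have h2 : ∀ j, ∃ i, a i = b j := fun j => by
      have : b j ∈ Set.range a := h ▸ ⟨j, rfl⟩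
      exact this
    choose σ hσ using h1
    choose ρ hρ using h2
    let e : ℕ ≃ ℕ := ⟨σ, ρ, fun i => ha (by rw [hρ, hσ]), fun j => hb (by rw [hσ, hρ])⟩
    obtain ⟨g⟩ := cn_iso a b e hσ
    exact ⟨@MulEquiv.trans _ _ _ (sn a ha).1.toSemigroup.toMul _ (sn b hb).1.toSemigroup.toMul
      (@MulEquiv.trans _ _ _ (sn a ha).1.toSemigroup.toMul _ _ EA g)
      (@MulEquiv.symm _ _ (sn b hb).1.toSemigroup.toMul _ EB)⟩

end

end Pool.Agent.H85.EQ
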