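import Pool.Agent.H85.EQ.Borel

/-!
The multiplication tables of solutions form a coanalytic set.
-/

open Pool.Agent.H38.EndQ MeasureTheory

namespace Pool.Agent.H85.EQ

noncomputable section

/-- Powers computed in a table: exponent `n + 1`. -/
def tp {K : Type} (t : K → K → K) (a : K) : ℕ → K
  | 0 => a
  | n + 1 => t (tp t a n) a

/-- The table of a structure on any set. -/
def tk {K : Type} (m : CommSemigroup K) : K → K → K := fun i j => m.toSemigroup.toMul.mul i j

theorem tp_table {K : Type} (m : CommSemigroup K) (a : K) (n : ℕ) :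
    @ppow K m.toSemigroup.toMul a n = tp (tk m) a n := by
  induction n with
  | zero => rfl
  | succ n ih =>
    change m.toSemigroup.toMul.mul (@ppow K m.toSemigroup.toMul a n) a =
      m.toSemigroup.toMul.mul (tp (tk m) a n) a
    rw [ih]

/-- The commutative semigroup of a table. -/
abbrev ofT {K : Type} (t : K → K → K) (h1 : ∀ a b c, t (t a b) c = t a (t b c))
    (h2 : ∀ a b, t a b = t b a) : CommSemigroup K :=
  { mul := t
    mul_assoc := h1
    mul_comm := h2 }

/-- The table is the table of a commutative semigroup. -/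
def csT {K : Type} (t : K → K → K) : Prop :=
  (∀ a b c, t (t a b) c = t a (t b c)) ∧ ∀ a b, t a b = t b a

/-- All power maps are bijective. -/
def bijT {K : Type} (t : K → K → K) : Prop :=
  ∀ n, (∀ a b, tp t a n = tp t b n → a = b) ∧ ∀ b, ∃ a, tp t a n = b

/-- `φ` is an endomorphism. -/
def endT {K : Type} (t : K → K → K) (φ : K → K) : Prop := ∀ a b, φ (t a b) = t (φ a) (φ b)

/-- `φ` is a positive rational power. -/
def ratT {K : Type} (t : K → K → K) (φ : K → K) : Prop :=
  ∃ m n, ∀ a, tp t (φ a) n = tp t a m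

/-- `φ` is constant with value the identity element. -/
def conT {K : Type} (t : K → K → K) (φ : K → K) : Prop := ∀ e, (∀ a, t a e = a) → ∀ a, φ a = e

theorem bij_iff {K : Type} (m : CommSemigroup K) :
    (∀ n : ℕ, Function.Bijective fun a : K => ppow a n) ↔ bijT (tk m) := by
  constructor
  · intro h n
    refine ⟨fun a b hab => (h n).1 ?_, fun b => ?_⟩
    · change ppow a n = ppow b n
      rw [tp_table, tp_table]
      exact hab
    · obtain ⟨a, ha⟩ := (h n).2 b
      refine ⟨a, ?_⟩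
      rw [← ha]
      exact (tp_table m a n).symm
  · intro h n
    refine ⟨fun a b hab => (h n).1 a b ?_, fun b => ?_⟩
    · change ppow a n = ppow b n at hab
      rw [tp_table, tp_table] at hab
      exact hab
    · obtain ⟨a, ha⟩ := (h n).2 b
      refine ⟨a, ?_⟩
      change ppow a n = b
      rw [tp_table]
      exact ha

theorem rat_iff {K : Type} (m : CommSemigroup K) (φ : K → K) :
    (∃ k n : ℕ, ∀ a, ppow (φ a) n = ppow a k) ↔ ratT (tk m) φ := by
  unfold ratT
  simp only [tp_table]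

theorem pos_iff {K : Type} [Nonempty K] (m : CommSemigroup K) : @EndIsPosRat K m ↔
    bijT (tk m) ∧ (∀ a, tk m a a ≠ a) ∧ ∀ φ, endT (tk m) φ → ratT (tk m) φ := by
  constructor
  · intro hm
    obtain ⟨h1, h2, h3⟩ := char_pos_forward hm
    exact ⟨(bij_iff m).1 h1, h2, fun φ hφ => (rat_iff m φ).1 (h3 ⟨φ, hφ⟩)⟩
  · rintro ⟨h1, h2, h3⟩
    exact char_pos_backward ((bij_iff m).2 h1) h2
      fun φ => (rat_iff m φ).2 (h3 φ (fun a b => φ.map_mul' a b))

theorem nonneg_iff {K : Type} (m : CommSemigroup K) : @EndIsNonnegRat K m ↔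
    bijT (tk m) ∧ (∃ e, (∀ a, tk m a e = a) ∧ (∀ a, tk m a a = a → a = e) ∧ ∃ a, a ≠ e) ∧
      ∀ φ, endT (tk m) φ → conT (tk m) φ ∨ ratT (tk m) φ := by
  constructor
  · intro hm
    obtain ⟨h1, e, h2, h3, h4, h5⟩ := char_nonneg_forward hm
    refine ⟨(bij_iff m).1 h1, ⟨e, h2, h3, h4⟩, fun φ hφ => ?_⟩
    rcases h5 ⟨φ, hφ⟩ with h | h
    · left
      intro e' he' a
      have : e = e' := by
        have a1 := he' e
        have a2 := h2 e'
        have a3 : tk m e e' = tk m e' e := m.mul_comm e e'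
        rw [← a1, a3]
        exact a2
      rw [← this]
      exact h a
    · exact Or.inr ((rat_iff m φ).1 h)
  · rintro ⟨h1, ⟨e, h2, h3, h4⟩, h5⟩
    refine char_nonneg_backward ((bij_iff m).2 h1) e h2 h3 h4 fun φ => ?_
    rcases h5 φ (fun a b => φ.map_mul' a b) with h | h
    · exact Or.inl (h e h2)
    · exact Or.inr ((rat_iff m φ).2 h)

theorem sol_pos_iff (t : ℕ → ℕ → ℕ) : (∃ m : SolPos ℕ, table m.1 = t) ↔
    csT t ∧ bijT t ∧ (∀ a, t a a ≠ a) ∧ ∀ φ, endT t φ → ratT t φ := by
  constructor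
  · rintro ⟨⟨m, hm⟩, rfl⟩
    exact ⟨⟨m.mul_assoc, m.mul_comm⟩, (pos_iff m).1 hm⟩
  · rintro ⟨⟨h1, h2⟩, h3⟩
    exact ⟨⟨ofT t h1 h2, (pos_iff (ofT t h1 h2)).2 h3⟩, rfl⟩

theorem sol_nonneg_iff (t : ℕ → ℕ → ℕ) : (∃ m : SolNonneg ℕ, table m.1 = t) ↔
    csT t ∧ bijT t ∧ (∃ e, (∀ a, t a e = a) ∧ (∀ a, t a a = a → a = e) ∧ ∃ a, a ≠ e) ∧
      ∀ φ, endT t φ → conT t φ ∨ ratT t φ := by
  constructor
  · rintro ⟨⟨m, hm⟩, rfl⟩
    exact ⟨⟨m.mul_assoc, m.mul_comm⟩, (nonneg_iff m).1 hm⟩
  · rintro ⟨⟨h1, h2⟩, h3⟩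
    exact ⟨⟨ofT t h1 h2, (nonneg_iff (ofT t h1 h2)).2 h3⟩, rfl⟩

/-! Measurability. -/

section

variable {X : Type*} [MeasurableSpace X]

theorem ev1 {F : X → ℕ → ℕ} (hF : ∀ n, Measurable fun x => F x n) {g : X → ℕ}
    (hg : Measurable g) : Measurable fun x => F x (g x) :=
  meas_comp g (fun n x => F x n) hg hF

theorem ev2 {F : X → ℕ → ℕ → ℕ} (hF : ∀ i j, Measurable fun x => F x i j) {g h : X → ℕ}
    (hg : Measurable g) (hh : Measurable h) : Measurable fun x => F x (g x) (h x) :=
  ev1 (F := fun x n => F x (g x) n) (fun n => ev1 (F := fun x k => F x k n) (fun k => hF k n) hg) hh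

theorem meas_tp {F : X → ℕ → ℕ → ℕ} (hF : ∀ i j, Measurable fun x => F x i j) {g : X → ℕ}
    (hg : Measurable g) (n : ℕ) : Measurable fun x => tp (F x) (g x) n := by
  induction n with
  | zero => exact hg
  | succ n ih => exact ev2 hF ih hg

theorem meas_eq {f g : X → ℕ} (hf : Measurable f) (hg : Measurable g) :
    Measurable fun x => f x = g x :=
  measurableSet_setOfPred.1 (measurableSet_eq_fun hf hg)

theorem meas_csT {F : X → ℕ → ℕ → ℕ} (hF : ∀ i j, Measurable fun x => F x i j) :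
    Measurable fun x => csT (F x) := by
  refine Measurable.and ?_ ?_
  · refine Measurable.forall fun a => Measurable.forall fun b => Measurable.forall fun c => ?_
    exact meas_eq (ev2 hF (hF a b) measurable_const) (ev2 hF measurable_const (hF b c))
  · refine Measurable.forall fun a => Measurable.forall fun b => ?_
    exact meas_eq (hF a b) (hF b a)

theorem meas_bijT {F : X → ℕ → ℕ → ℕ} (hF : ∀ i j, Measurable fun x => F x i j) :
    Measurable fun x => bijT (F x) := by
  refine Measurable.forall fun n => Measurable.and ?_ ?_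
  · refine Measurable.forall fun a => Measurable.forall fun b => ?_
    exact (meas_eq (meas_tp hF measurable_const n) (meas_tp hF measurable_const n)).imp
      measurable_const
  · refine Measurable.forall fun b => Measurable.exists fun a => ?_
    exact meas_eq (meas_tp hF measurable_const n) measurable_const

theorem meas_endT {F : X → ℕ → ℕ → ℕ} (hF : ∀ i j, Measurable fun x => F x i j)
    {G : X → ℕ → ℕ} (hG : ∀ i, Measurable fun x => G x i) :
    Measurable fun x => endT (F x) (G x) := by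
  refine Measurable.forall fun a => Measurable.forall fun b => ?_
  exact meas_eq (ev1 hG (hF a b)) (ev2 hF (hG a) (hG b))

theorem meas_ratT {F : X → ℕ → ℕ → ℕ} (hF : ∀ i j, Measurable fun x => F x i j)
    {G : X → ℕ → ℕ} (hG : ∀ i, Measurable fun x => G x i) :
    Measurable fun x => ratT (F x) (G x) := by
  refine Measurable.exists fun m => Measurable.exists fun n => Measurable.forall fun a => ?_
  exact meas_eq (meas_tp hF (hG a) n) (meas_tp hF measurable_const m)

end

theorem hT (i j : ℕ) : Measurable fun t : ℕ → ℕ → ℕ => t i j :=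
  (measurable_pi_apply j).comp (measurable_pi_apply i)

theorem hT1 (i j : ℕ) : Measurable fun z : (ℕ → ℕ → ℕ) × (ℕ → ℕ) => z.1 i j :=
  (hT i j).comp measurable_fst

theorem hT2 (i : ℕ) : Measurable fun z : (ℕ → ℕ → ℕ) × (ℕ → ℕ) => z.2 i :=
  (measurable_pi_apply i).comp measurable_snd

/-- A measurable condition defines an analytic set. -/
theorem an_meas {p : (ℕ → ℕ → ℕ) → Prop} (hp : Measurable p) : AnalyticSet {t | p t} :=
  (measurableSet_setOfPred.2 hp).analyticSet

/-- The projection of a Borel set of a product of Polish spaces is analytic. -/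
theorem an_fst {X Y : Type} [TopologicalSpace X] [TopologicalSpace Y] [PolishSpace X]
    [PolishSpace Y] [MeasurableSpace X] [BorelSpace X] [MeasurableSpace Y] [BorelSpace Y]
    {s : Set (X × Y)} (hs : MeasurableSet s) : AnalyticSet (Prod.fst '' s) := by
  have h1 : AnalyticSet s := hs.analyticSet
  exact h1.image_of_continuous continuous_fst

/-- Projections of measurable conditions define analytic sets. -/
theorem an_proj {p : (ℕ → ℕ → ℕ) → (ℕ → ℕ) → Prop}
    (hp : Measurable fun z : (ℕ → ℕ → ℕ) × (ℕ → ℕ) => p z.1 z.2) :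
    AnalyticSet {t | ∃ φ, p t φ} := by
  have h0 : MeasurableSet {z : (ℕ → ℕ → ℕ) × (ℕ → ℕ) | p z.1 z.2} :=
    measurableSet_setOfPred.2 hp
  have h2 := an_fst h0
  convert h2 using 1
  ext t
  constructor
  · rintro ⟨φ, h⟩
    exact ⟨(t, φ), h, rfl⟩
  · rintro ⟨⟨t', φ⟩, h, rfl⟩
    exact ⟨φ, h⟩

theorem an_or {p q : (ℕ → ℕ → ℕ) → Prop} (hp : AnalyticSet {t | p t})
    (hq : AnalyticSet {t | q t}) : AnalyticSet {t | p t ∨ q t} := by
  have h : {t | p t ∨ q t} = ⋃ b : Bool, cond b {t | p t} {t | q t} := by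
    rw [← Set.union_eq_iUnion]
    rfl
  rw [h]
  refine AnalyticSet.iUnion fun b => ?_
  cases b
  · exact hq
  · exact hp

/-- The set of multiplication tables of solutions is coanalytic, positive case. -/
theorem coan_pos : AnalyticSet ({t : ℕ → ℕ → ℕ | ∃ m : SolPos ℕ, table m.1 = t}ᶜ) := by
  have h : {t : ℕ → ℕ → ℕ | ∃ m : SolPos ℕ, table m.1 = t}ᶜ =
      {t | (¬ (csT t ∧ bijT t ∧ ∀ a, t a a ≠ a)) ∨ ∃ φ, endT t φ ∧ ¬ ratT t φ} := by
    ext t
    change (¬ ∃ m : SolPos ℕ, table m.1 = t) ↔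
      (¬ (csT t ∧ bijT t ∧ ∀ a, t a a ≠ a)) ∨ ∃ φ, endT t φ ∧ ¬ ratT t φ
    rw [sol_pos_iff]
    constructor
    · intro h
      by_contra hcon
      rw [not_or, not_not, not_exists] at hcon
      refine h ⟨hcon.1.1, hcon.1.2.1, hcon.1.2.2, fun φ hφ => ?_⟩
      by_contra h2
      exact hcon.2 φ ⟨hφ, h2⟩
    · rintro (h | ⟨φ, h1, h2⟩) ⟨a1, a2, a3, a4⟩
      · exact h ⟨a1, a2, a3⟩
      · exact h2 (a4 φ h1)
  rw [h]
  refine an_or (an_meas ?_) (an_proj ?_)
  · refine ((meas_csT hT).and ((meas_bijT hT).and (Measurable.forall fun a => ?_))).not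
    exact (meas_eq (hT a a) measurable_const).not
  · exact (meas_endT hT1 hT2).and (meas_ratT hT1 hT2).not

/-- The set of multiplication tables of solutions is coanalytic, nonnegative case. -/
theorem coan_nonneg : AnalyticSet ({t : ℕ → ℕ → ℕ | ∃ m : SolNonneg ℕ, table m.1 = t}ᶜ) := by
  have h : {t : ℕ → ℕ → ℕ | ∃ m : SolNonneg ℕ, table m.1 = t}ᶜ =
      {t | (¬ (csT t ∧ bijT t ∧ ∃ e, (∀ a, t a e = a) ∧ (∀ a, t a a = a → a = e) ∧
        ∃ a, a ≠ e)) ∨ ∃ φ, endT t φ ∧ ¬ (conT t φ ∨ ratT t φ)} := by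
    ext t
    change (¬ ∃ m : SolNonneg ℕ, table m.1 = t) ↔
      ((¬ (csT t ∧ bijT t ∧ ∃ e, (∀ a, t a e = a) ∧ (∀ a, t a a = a → a = e) ∧
        ∃ a, a ≠ e)) ∨ ∃ φ, endT t φ ∧ ¬ (conT t φ ∨ ratT t φ))
    rw [sol_nonneg_iff]
    constructor
    · intro h
      by_contra hcon
      rw [not_or, not_not, not_exists] at hcon
      refine h ⟨hcon.1.1, hcon.1.2.1, hcon.1.2.2, fun φ hφ => ?_⟩
      by_contra h2
      exact hcon.2 φ ⟨hφ, h2⟩
    · rintro (h | ⟨φ, h1, h2⟩) ⟨a1, a2, a3, a4⟩
      · exact h ⟨a1, a2, a3⟩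
      · exact h2 (a4 φ h1)
  rw [h]
  refine an_or (an_meas ?_) (an_proj ?_)
  · refine ((meas_csT hT).and ((meas_bijT hT).and (Measurable.exists fun e => ?_))).not
    refine (Measurable.forall fun a => meas_eq (hT a e) measurable_const).and
      ((Measurable.forall fun a => (meas_eq (hT a a) measurable_const).imp
        measurable_const).and measurable_const)
  · refine (meas_endT hT1 hT2).and (Measurable.not (Measurable.or ?_ (meas_ratT hT1 hT2)))
    refine Measurable.forall fun e => Measurable.imp ?_ ?_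
    · exact Measurable.forall fun a => meas_eq (hT1 a e) measurable_const
    · exact Measurable.forall fun a => meas_eq (hT2 a) measurable_const

end

end Pool.Agent.H85.EQ
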