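import Mathlib

/-!
The relation `equal up to finitely many coordinates` on bit sequences has no Borel complete
invariant in a countably separated space.
-/

open MeasureTheory ProbabilityTheory Measure Filter
open scoped ENNReal

namespace Pool.Agent.H85.EQ

noncomputable section

/-- The fair coin. -/
def coin : Measure Bool := (2 : ℝ≥0∞)⁻¹ • dirac true + (2 : ℝ≥0∞)⁻¹ • dirac false

instance : IsProbabilityMeasure coin := by
  constructor
  simp [coin, ENNReal.inv_two_add_inv_two]

theorem coin_singleton (b : Bool) : coin {b} = (2 : ℝ≥0∞)⁻¹ := by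
  cases b <;> simp [coin]

/-- The coin tossing measure. -/
def toss : Measure (ℕ → Bool) := infinitePi fun _ => coin

instance : IsProbabilityMeasure toss := by unfold toss; infer_instance

theorem toss_singleton (x : ℕ → Bool) : toss {x} = 0 := by
  have h1 : ∀ n : ℕ, toss {x} ≤ (2 : ℝ≥0∞)⁻¹ ^ n := by
    intro n
    have h2 : toss (Set.pi (Finset.range n : Set ℕ) fun i => {x i}) = (2 : ℝ≥0∞)⁻¹ ^ n := by
      unfold toss
      rw [infinitePi_pi]
      · simp [coin_singleton]
      · intro i _
        exact measurableSet_singleton _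
    rw [← h2]
    apply measure_mono
    rintro y rfl i _
    rfl
  have h3 : Tendsto (fun n : ℕ => (2 : ℝ≥0∞)⁻¹ ^ n) atTop (nhds 0) :=
    ENNReal.tendsto_pow_atTop_nhds_zero_of_lt_one (by simp)
  exact le_antisymm (ge_of_tendsto' h3 h1) bot_le

/-- Delete the first `n` bits. -/
def cut (n : ℕ) (x : ℕ → Bool) : ℕ → Bool := fun i => if i < n then false else x i

/-- The σ-algebra of the `i`-th coordinate. -/
abbrev sg (i : ℕ) : MeasurableSpace (ℕ → Bool) := MeasurableSpace.comap (fun x => x i) ⊤

theorem sg_le (i : ℕ) : sg i ≤ MeasurableSpace.pi := by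
  have h : Measurable fun x : ℕ → Bool => x i := measurable_pi_apply i
  exact h.comap_le

theorem sg_indep : iIndep sg toss := by
  have h := iIndepFun_infinitePi (P := fun _ : ℕ => coin) (X := fun _ b => b)
    (fun _ => measurable_id)
  exact h

theorem cut_meas (n : ℕ) : Measurable[⨆ i ≥ n, sg i] (cut n) := by
  rw [@measurable_pi_iff]
  intro i
  by_cases hi : i < n
  · have : (fun x : ℕ → Bool => cut n x i) = fun _ => false := by
      funext x
      simp [cut, hi]
    rw [this]
    exact measurable_const
  · have : (fun x : ℕ → Bool => cut n x i) = fun x => x i := by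
      funext x
      simp [cut, hi]
    rw [this]
    have h1 : sg i ≤ ⨆ i ≥ n, sg i := le_iSup₂_of_le i (not_lt.1 hi) le_rfl
    exact Measurable.mono (@comap_measurable _ _ ⊤ _) h1 le_rfl

/-- Borel sets invariant under finite changes are null or conull. -/
theorem zero_one {t : Set (ℕ → Bool)} (ht : MeasurableSet t)
    (hinv : ∀ n x, x ∈ t ↔ cut n x ∈ t) : toss t = 0 ∨ toss t = 1 := by
  apply measure_zero_or_one_of_measurableSet_limsup_atTop sg_le sg_indep
  rw [limsup_eq_iInf_iSup_of_nat, MeasurableSpace.measurableSet_iInf]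
  intro n
  have : t = cut n ⁻¹' t := by
    ext x
    exact hinv n x
  rw [this]
  exact cut_meas n ht

theorem cut_finite (n : ℕ) (x : ℕ → Bool) : {i | x i ≠ cut n x i}.Finite := by
  refine (Set.finite_lt_nat n).subset ?_
  intro i hi
  by_contra hcon
  apply hi
  have : ¬ i < n := hcon
  simp [cut, this]

theorem class_countable (x : ℕ → Bool) : {y : ℕ → Bool | {i | x i ≠ y i}.Finite}.Countable := by
  have h1 : Function.Injective (fun y : {y : ℕ → Bool // {i | x i ≠ y i}.Finite} =>
      y.2.toFinset) := by
    rintro ⟨y, hy⟩ ⟨z, hz⟩ h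
    apply Subtype.ext
    funext i
    have h2 : i ∈ hy.toFinset ↔ i ∈ hz.toFinset := by
      have h3 : hy.toFinset = hz.toFinset := h
      rw [h3]
    rw [Set.Finite.mem_toFinset, Set.Finite.mem_toFinset] at h2
    change x i ≠ y i ↔ x i ≠ z i at h2
    change y i = z i
    revert h2
    cases x i <;> cases y i <;> cases z i <;> simp
  have : Countable {y : ℕ → Bool // {i | x i ≠ y i}.Finite} := h1.countable
  exact this

/-- There is no Borel complete invariant. -/
theorem no_invariant {Y : Type*} [MeasurableSpace Y] [MeasurableSpace.CountablySeparated Y]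
    (F : (ℕ → Bool) → Y) (hF : Measurable F) :
    ¬ ∀ x y : ℕ → Bool, F x = F y ↔ {i | x i ≠ y i}.Finite := by
  intro h
  have hY : Nonempty Y := ⟨F fun _ => false⟩
  obtain ⟨a, ha⟩ : ∃ a, F =ᶠ[ae toss] Function.const _ a := by
    apply exists_eventuallyEq_const_of_forall_separating MeasurableSet
    intro V hV
    have hinv : ∀ n x, x ∈ F ⁻¹' V ↔ cut n x ∈ F ⁻¹' V := by
      intro n x
      have : F x = F (cut n x) := (h x (cut n x)).2 (cut_finite n x)
      simp only [Set.mem_preimage, this]
    rcases zero_one (hF hV) hinv with h0 | h1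
    · right
      exact measure_eq_zero_iff_ae_notMem.1 h0
    · left
      exact (prob_compl_eq_zero_iff (hF hV)).2 h1
  obtain ⟨x0, hx0⟩ := ha.exists
  have h2 : ∀ᵐ x ∂toss, x ∈ {y : ℕ → Bool | {i | x0 i ≠ y i}.Finite} := by
    filter_upwards [ha] with x hx
    exact (h x0 x).1 (hx0.trans hx.symm)
  have h3 : toss {y : ℕ → Bool | {i | x0 i ≠ y i}.Finite} = 0 := by
    have := (class_countable x0)
    rw [← Set.biUnion_of_singleton {y : ℕ → Bool | {i | x0 i ≠ y i}.Finite}]
    exact (measure_biUnion_null_iff this).2 fun x _ => toss_singleton x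
  have h4 : ∀ᵐ x ∂toss, x ∉ {y : ℕ → Bool | {i | x0 i ≠ y i}.Finite} :=
    measure_eq_zero_iff_ae_notMem.1 h3
  obtain ⟨x, hx1, hx2⟩ := (h2.and h4).exists
  exact hx2 hx1

end

end Pool.Agent.H85.EQ
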