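import Pool.Agent.H85.EQ.Borel
import Pool.Agent.H85.EQ.Zero

/-!
Equality of countable sets of reals reduces to isomorphism of countable solutions, and countable
solutions have no Borel complete invariants in a countably separated space.
-/

open Pool.Agent.H38.EndQ MeasureTheory

namespace Pool.Agent.H85.EQ

universe v

noncomputable section

/-- Equality of countable sets of bit sequences (given by injective enumerations) is Borel
reducible to isomorphism of solutions on the natural numbers, positive case. -/
theorem red_pos : ∃ β : (ℕ → ℕ → Bool) → ℕ → ℕ → ℕ, Measurable β ∧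
    (∀ a, Function.Injective a → ∃ m : SolPos ℕ, table m.1 = β a) ∧
    ∀ a b, Function.Injective a → Function.Injective b → ∀ m n : SolPos ℕ,
      table m.1 = β a → table n.1 = β b →
        ((isoPos ℕ).r m n ↔ Set.range a = Set.range b) := by
  refine ⟨bp, meas_bp, fun a ha => ⟨sp a ha, rfl⟩, ?_⟩
  intro a b ha hb m n hm hn
  have h1 : m = sp a ha := Subtype.ext (table_inj hm)
  have h2 : n = sp b hb := Subtype.ext (table_inj hn)
  rw [h1, h2]
  exact sp_iso a b ha hb

/-- The same for the nonnegative case. -/
theorem red_nonneg : ∃ β : (ℕ → ℕ → Bool) → ℕ → ℕ → ℕ, Measurable β ∧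
    (∀ a, Function.Injective a → ∃ m : SolNonneg ℕ, table m.1 = β a) ∧
    ∀ a b, Function.Injective a → Function.Injective b → ∀ m n : SolNonneg ℕ,
      table m.1 = β a → table n.1 = β b →
        ((isoNonneg ℕ).r m n ↔ Set.range a = Set.range b) := by
  refine ⟨bn, meas_bn, fun a ha => ⟨sn a ha, rfl⟩, ?_⟩
  intro a b ha hb m n hm hn
  have h1 : m = sn a ha := Subtype.ext (table_inj hm)
  have h2 : n = sn b hb := Subtype.ext (table_inj hn)
  rw [h1, h2]
  exact sn_iso a b ha hb

theorem exists_fin : Nonempty (ℕ ≃ Finset ℕ) := by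
  have : Countable (Finset ℕ) := inferInstance
  have : Infinite (Finset ℕ) := inferInstance
  exact nonempty_equiv_of_countable

/-- A fixed enumeration of the finite sets of natural numbers. -/
def fn : ℕ ≃ Finset ℕ := exists_fin.some

/-- The sequences which differ from `x` in finitely many places. -/
def cl (x : ℕ → Bool) (j n : ℕ) : Bool := xor (x n) (decide (n ∈ fn j))

theorem cl_inj (x : ℕ → Bool) : Function.Injective (cl x) := by
  intro i j h
  apply fn.injective
  ext n
  have h1 : xor (x n) (decide (n ∈ fn i)) = xor (x n) (decide (n ∈ fn j)) := congrFun h n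
  revert h1
  by_cases h2 : n ∈ fn i <;> by_cases h3 : n ∈ fn j <;> cases x n <;> simp [h2, h3]

theorem cl_range (x : ℕ → Bool) : Set.range (cl x) = {y | {i | x i ≠ y i}.Finite} := by
  ext y
  constructor
  · rintro ⟨j, rfl⟩
    refine (fn j).finite_toSet.subset ?_
    intro n hn
    by_contra hcon
    apply hn
    have : n ∉ fn j := hcon
    simp [cl, this]
  · intro h
    have h' : {i | x i ≠ y i}.Finite := h
    refine ⟨fn.symm h'.toFinset, ?_⟩
    funext n
    unfold cl
    rw [fn.apply_symm_apply]
    by_cases hn : x n = y n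
    · have : n ∉ h'.toFinset := by
        rw [Set.Finite.mem_toFinset]
        exact fun h1 => h1 hn
      simp [this, hn]
    · have : n ∈ h'.toFinset := by
        rw [Set.Finite.mem_toFinset]
        exact hn
      simp only [this, decide_true]
      revert hn
      cases x n <;> cases y n <;> simp

theorem cl_range_eq (x y : ℕ → Bool) :
    Set.range (cl x) = Set.range (cl y) ↔ {i | x i ≠ y i}.Finite := by
  constructor
  · intro h
    have h1 : y ∈ Set.range (cl y) := by
      rw [cl_range]
      change {i | y i ≠ y i}.Finite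
      simp
    rw [← h, cl_range] at h1
    exact h1
  · intro h
    rw [cl_range, cl_range]
    ext z
    constructor
    · intro h1
      refine (h.union h1).subset ?_
      intro i hi
      by_contra hcon
      have h2 : ¬ (x i ≠ y i) := fun h3 => hcon (Or.inl h3)
      have h3 : ¬ (x i ≠ z i) := fun h3 => hcon (Or.inr h3)
      push Not at h2 h3
      exact hi (h2.symm.trans h3)
    · intro h1
      refine (h.union h1).subset ?_
      intro i hi
      by_contra hcon
      have h2 : ¬ (x i ≠ y i) := fun h3 => hcon (Or.inl h3)
      have h3 : ¬ (y i ≠ z i) := fun h3 => hcon (Or.inr h3)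
      push Not at h2 h3
      exact hi (h2.trans h3)

theorem meas_cl : Measurable cl := by
  refine measurable_pi_iff.2 fun j => measurable_pi_iff.2 fun n => ?_
  have h1 : Measurable fun x : ℕ → Bool => x n := measurable_pi_apply n
  have h2 : Measurable fun b : Bool => xor b (decide (n ∈ fn j)) := Measurable.of_discrete
  exact h2.comp h1

/-- Countable solutions have no Borel complete invariants, positive case. -/
theorem noinv_pos {Y : Type v} [MeasurableSpace Y] [MeasurableSpace.CountablySeparated Y]
    (Φ : (ℕ → ℕ → ℕ) → Y) (hΦ : Measurable Φ) :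
    ¬ ∀ m n : SolPos ℕ, Φ (table m.1) = Φ (table n.1) ↔ (isoPos ℕ).r m n := by
  intro h
  apply no_invariant (fun x => Φ (bp (cl x))) (hΦ.comp (meas_bp.comp meas_cl))
  intro x y
  have h1 := h (sp (cl x) (cl_inj x)) (sp (cl y) (cl_inj y))
  have h2 := sp_iso (cl x) (cl y) (cl_inj x) (cl_inj y)
  exact h1.trans (h2.trans (cl_range_eq x y))

/-- Countable solutions have no Borel complete invariants, nonnegative case. -/
theorem noinv_nonneg {Y : Type v} [MeasurableSpace Y] [MeasurableSpace.CountablySeparated Y]
    (Φ : (ℕ → ℕ → ℕ) → Y) (hΦ : Measurable Φ) :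
    ¬ ∀ m n : SolNonneg ℕ, Φ (table m.1) = Φ (table n.1) ↔ (isoNonneg ℕ).r m n := by
  intro h
  apply no_invariant (fun x => Φ (bn (cl x))) (hΦ.comp (meas_bn.comp meas_cl))
  intro x y
  have h1 := h (sn (cl x) (cl_inj x)) (sn (cl y) (cl_inj y))
  have h2 := sn_iso (cl x) (cl y) (cl_inj x) (cl_inj y)
  exact h1.trans (h2.trans (cl_range_eq x y))

end

end Pool.Agent.H85.EQ
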