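import Pool.Agent.H38.EndQ.Final

/-!
Cones attached to sets of reals: the points are the elements of `W`, each of which carries a
sequence of bits, and a base point `none`.  Additive maps between two such cones are rational
multiples of the relabelling given by equality of the bit sequences.
-/

open Polynomial Pool.Agent.H38.EndQ

namespace Pool.Agent.H85.EQ

noncomputable section

/-- Domains of the operations: everything, the base point, and for every `n` and every bit `b` the
points whose `n`-th bit is `b`. -/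
def oD {W : Type} (r : W → ℕ → Bool) : ℕ → Set (Option W)
  | 0 => Set.univ
  | 1 => {none}
  | k + 2 => {z | ∃ w, z = some w ∧ r w (k / 2) = decide (k % 2 = 0)}

/-- The operations: the constant map to the base point, and otherwise the identity. -/
def oF {W : Type} : ℕ → Option W → Option W
  | 0, _ => none
  | _ + 1, z => z

/-- The system of operations attached to a family of bit sequences. -/
def ro {W : Type} (r : W → ℕ → Bool) : Ops (Option W) := ⟨oD r, oF⟩

theorem bits_eq {W W' : Type} (r : W → ℕ → Bool) (r' : W' → ℕ → Bool) (w : W) (y : Option W')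
    (h : ∀ k, some w ∈ oD r (k + 2) → y ∈ oD r' (k + 2)) : ∃ w', y = some w' ∧ r' w' = r w := by
  have h0 : ∀ n, ∃ w', y = some w' ∧ r' w' n = r w n := by
    intro n
    by_cases hb : r w n = true
    · have h1 := h (2 * n) ⟨w, rfl, by
        have e1 : 2 * n / 2 = n := by omega
        have e2 : 2 * n % 2 = 0 := by omega
        rw [e1, e2, hb]
        rfl⟩
      obtain ⟨w', h2, h3⟩ := h1
      have e1 : 2 * n / 2 = n := by omega
      have e2 : 2 * n % 2 = 0 := by omega
      rw [e1, e2] at h3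
      exact ⟨w', h2, by rw [h3, hb]; rfl⟩
    · have hb' : r w n = false := by simpa using hb
      have h1 := h (2 * n + 1) ⟨w, rfl, by
        have e1 : (2 * n + 1) / 2 = n := by omega
        have e2 : (2 * n + 1) % 2 = 1 := by omega
        rw [e1, e2, hb']
        rfl⟩
      obtain ⟨w', h2, h3⟩ := h1
      have e1 : (2 * n + 1) / 2 = n := by omega
      have e2 : (2 * n + 1) % 2 = 1 := by omega
      rw [e1, e2] at h3
      exact ⟨w', h2, by rw [h3, hb']; rfl⟩
  obtain ⟨w', hw', _⟩ := h0 0
  refine ⟨w', hw', ?_⟩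
  funext n
  obtain ⟨w'', hw'', h3⟩ := h0 n
  rw [hw'] at hw''
  rw [Option.some_injective _ hw'', h3]

/-- The matrix of an additive map between the cones of two families of bit sequences. -/
theorem mat_reals {W W' : Type} (r : W → ℕ → Bool) (r' : W' → ℕ → Bool)
    (hr' : Function.Injective r') (T : (ro r).Cn →+ (ro r').Cn) :
    ∃ q : ℚ, 0 ≤ q ∧ mat (ro r) (ro r') T none = Finsupp.single none q ∧
      ∀ w, (q ≠ 0 → ∃ w', r' w' = r w) ∧
        ∀ w', r' w' = r w → mat (ro r) (ro r') T (some w) = Finsupp.single (some w') q := by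
  classical
  set τ := mat (ro r) (ro r') T with hτ
  have hnn : ∀ x y, 0 ≤ τ x y := mat_nonneg _ _ T
  have hops : ∀ i x, x ∈ oD r i → (∀ y, y ∉ oD r' i → τ x y = 0) ∧
      τ (oF i x) = Finsupp.mapDomain (oF i) (τ x) := fun i x hx => mat_ops _ _ T i x hx
  have hnone : τ none = Finsupp.single none (τ none none) := by
    ext y
    rcases eq_or_ne y none with rfl | hy
    · simp
    · rw [Finsupp.single_apply, if_neg (Ne.symm hy)]
      exact (hops 1 none rfl).1 y hy
  have hmass : ∀ x, mass (τ x) = τ none none := by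
    intro x
    have h1 : τ none = Finsupp.mapDomain (oF 0) (τ x) := (hops 0 x trivial).2
    have h2 : mass (τ none) = mass (τ x) := by rw [h1, mass_mapDomain]
    rw [← h2, hnone, mass, Finsupp.sum_single_index rfl]
    simp
  have hsupp : ∀ w, ∀ y ∈ (τ (some w)).support, ∃ w', y = some w' ∧ r' w' = r w := by
    intro w y hy
    apply bits_eq r r' w y
    intro k hk
    by_contra hcon
    exact (Finsupp.mem_support_iff.1 hy) ((hops (k + 2) (some w) hk).1 y hcon)
  refine ⟨τ none none, hnn _ _, hnone, fun w => ⟨?_, ?_⟩⟩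
  · intro hq
    have hne : (τ (some w)).support.Nonempty := by
      rw [Finset.nonempty_iff_ne_empty, Ne, Finsupp.support_eq_empty]
      intro h
      apply hq
      rw [← hmass (some w), h]
      rfl
    obtain ⟨y, hy⟩ := hne
    obtain ⟨w', _, h⟩ := hsupp w y hy
    exact ⟨w', h⟩
  · intro w' hw'
    have hsub : (τ (some w)).support ⊆ {some w'} := by
      intro y hy
      obtain ⟨w'', rfl, h⟩ := hsupp w y hy
      rw [Finset.mem_singleton, hr' (h.trans hw'.symm)]
    rw [Finsupp.support_subset_singleton] at hsub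
    rw [hsub]
    congr 1
    have := hmass (some w)
    rw [hsub, mass, Finsupp.sum_single_index rfl] at this
    exact this

/-- Additive maps from a cone to itself are rational multiples of the identity. -/
theorem cone_self {W : Type} (r : W → ℕ → Bool) (hr : Function.Injective r)
    (T : (ro r).Cn →+ (ro r).Cn) :
    ∃ q : ℚ, 0 ≤ q ∧ ∀ v, ((T v : (ro r).Cn) : Option W →₀ ℚ[X]) =
      q • ((v : (ro r).Cn) : Option W →₀ ℚ[X]) := by
  classical
  obtain ⟨q, hq, h0, h1⟩ := mat_reals r r hr T
  have hmain : ∀ x, mat (ro r) (ro r) T x = Finsupp.single x q := by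
    rintro (_ | w)
    · exact h0
    · exact (h1 w).2 w rfl
  refine ⟨q, hq, fun v => ?_⟩
  ext1 y
  apply ev_inj
  rw [T_formula]
  rw [Finsupp.smul_apply, map_smul, Finsupp.sum]
  have : ∀ x ∈ ((v : (ro r).Cn) : Option W →₀ ℚ[X]).support,
      ev (((v : (ro r).Cn) : Option W →₀ ℚ[X]) x) * ((mat (ro r) (ro r) T x y : ℚ) : ℝ) =
      if x = y then ev (((v : (ro r).Cn) : Option W →₀ ℚ[X]) y) * (q : ℝ) else 0 := by
    intro x _
    rw [hmain x, Finsupp.single_apply]
    split_ifs with h
    · rw [h]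
    · simp
  rw [Finset.sum_congr rfl this, Finset.sum_ite_eq']
  split_ifs with h
  · rw [mul_comm, Rat.smul_def]
  · rw [Finsupp.notMem_support_iff.1 h]
    simp

/-- A nonzero additive map exists only if the first set of reals is contained in the second. -/
theorem cone_subset {W W' : Type} (r : W → ℕ → Bool) (r' : W' → ℕ → Bool)
    (hr' : Function.Injective r') (T : (ro r).Cn →+ (ro r').Cn)
    (hT : T ((ro r).e none) ≠ 0) : Set.range r ⊆ Set.range r' := by
  obtain ⟨q, hq, h0, h1⟩ := mat_reals r r' hr' T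
  have hq0 : q ≠ 0 := by
    intro h
    apply hT
    apply Subtype.ext
    ext1 y
    rw [T_e, h0, h]
    simp
  rintro _ ⟨w, rfl⟩
  obtain ⟨w', hw'⟩ := (h1 w).1 hq0
  exact ⟨w', hw'⟩

/-! Positive cones of arbitrary systems of operations. -/

section generic

variable {P : Type} (O : Ops P)

/-- The nonzero vectors of the cone. -/
def pc : AddSubsemigroup (P →₀ ℚ[X]) where
  carrier := {v | v ∈ O.Cn ∧ v ≠ 0}
  add_mem' := by
    rintro v w ⟨h1, h2⟩ ⟨h3, _⟩
    exact ⟨O.Cn.add_mem h1 h3, fun h => h2 (cone_eq_zero h1 h3 h)⟩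

theorem mem_pc (v : P →₀ ℚ[X]) : v ∈ pc O ↔ v ∈ O.Cn ∧ v ≠ 0 := Iff.rfl

/-- The unit vector as an element of the positive cone. -/
def pe (x : P) : pc O :=
  ⟨Finsupp.single x (C 1), (O.e x).2, by
    rw [Ne, Finsupp.single_eq_zero]
    simp⟩

theorem ppow_pc (v : Multiplicative (pc O)) (n : ℕ) :
    ((ppow v n).toAdd : P →₀ ℚ[X]) = ((n : ℚ) + 1) • (v.toAdd : P →₀ ℚ[X]) := by
  induction n with
  | zero => simp [ppow]
  | succ n ih =>
    rw [ppow, toAdd_mul, AddMemClass.coe_add, ih]
    push_cast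
    rw [add_smul ((n : ℚ) + 1) 1, one_smul]

theorem ppow_cn (v : Multiplicative O.Cn) (n : ℕ) :
    ((ppow v n).toAdd : P →₀ ℚ[X]) = ((n : ℚ) + 1) • (v.toAdd : P →₀ ℚ[X]) := by
  induction n with
  | zero => simp [ppow]
  | succ n ih =>
    rw [ppow, toAdd_mul, AddSubmonoid.coe_add, ih]
    push_cast
    rw [add_smul ((n : ℚ) + 1) 1, one_smul]

variable {O}

/-- Multiplicative maps of positive cones extend to additive maps of cones. -/
theorem extend_pc {P' : Type} {O' : Ops P'}
    (φ : Multiplicative (pc O) →ₙ* Multiplicative (pc O')) :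
    ∃ T : O.Cn →+ O'.Cn, ∀ v : Multiplicative (pc O),
      ((φ v).toAdd : P' →₀ ℚ[X]) = ((T ⟨v.toAdd, v.toAdd.2.1⟩ : O'.Cn) : P' →₀ ℚ[X]) := by
  classical
  let f : O.Cn → O'.Cn := fun v =>
    if h : (v : P →₀ ℚ[X]) = 0 then 0 else
      ⟨((φ (Multiplicative.ofAdd ⟨v, v.2, h⟩)).toAdd : P' →₀ ℚ[X]),
        (φ (Multiplicative.ofAdd ⟨v, v.2, h⟩)).toAdd.2.1⟩
  have hf0 : ∀ v : O.Cn, (v : P →₀ ℚ[X]) = 0 → f v = 0 := fun v h => dif_pos h
  have hf1 : ∀ (v : O.Cn) (h : (v : P →₀ ℚ[X]) ≠ 0), ((f v : O'.Cn) : P' →₀ ℚ[X]) =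
      ((φ (Multiplicative.ofAdd ⟨v, v.2, h⟩)).toAdd : P' →₀ ℚ[X]) := by
    intro v h
    simp only [f, dif_neg h]
  let T : O.Cn →+ O'.Cn :=
    { toFun := f
      map_zero' := hf0 0 rfl
      map_add' := by
        intro v w
        by_cases hv : (v : P →₀ ℚ[X]) = 0
        · have : v = 0 := Subtype.ext hv
          rw [this, zero_add, hf0 0 rfl, zero_add]
        by_cases hw : (w : P →₀ ℚ[X]) = 0
        · have : w = 0 := Subtype.ext hw
          rw [this, add_zero, hf0 0 rfl, add_zero]
        have hvw : ((v + w : O.Cn) : P →₀ ℚ[X]) ≠ 0 :=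
          fun h => hv (cone_eq_zero v.2 w.2 h)
        apply Subtype.ext
        rw [AddSubmonoid.coe_add, hf1 _ hvw, hf1 _ hv, hf1 _ hw]
        have : (Multiplicative.ofAdd (⟨((v + w : O.Cn) : P →₀ ℚ[X]), (v + w).2, hvw⟩ :
            pc O)) = Multiplicative.ofAdd (⟨v, v.2, hv⟩ : pc O) *
              Multiplicative.ofAdd (⟨w, w.2, hw⟩ : pc O) := rfl
        rw [this, map_mul, toAdd_mul]
        rfl }
  exact ⟨T, fun v => (hf1 ⟨v.toAdd, v.toAdd.2.1⟩ v.toAdd.2.2).symm⟩

/-- Multiplicative maps of cones are additive maps of cones. -/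
theorem extend_cn {P' : Type} {O' : Ops P'}
    (φ : Multiplicative O.Cn →ₙ* Multiplicative O'.Cn) :
    ∃ T : O.Cn →+ O'.Cn, ∀ v : Multiplicative O.Cn, (φ v).toAdd = T v.toAdd := by
  let T : O.Cn →+ O'.Cn :=
    { toFun := fun v => (φ (Multiplicative.ofAdd v)).toAdd
      map_zero' := by
        have h1 : φ (Multiplicative.ofAdd 0) * φ (Multiplicative.ofAdd 0) =
            φ (Multiplicative.ofAdd 0) := by
          rw [← map_mul, ← ofAdd_add, add_zero]
        have h2 := congrArg (fun x => ((Multiplicative.toAdd x : O'.Cn) : P' →₀ ℚ[X])) h1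
        simp only [toAdd_mul, AddSubmonoid.coe_add] at h2
        apply Subtype.ext
        exact add_eq_left.1 h2
      map_add' := by
        intro v w
        rw [ofAdd_add, map_mul, toAdd_mul] }
  exact ⟨T, fun v => rfl⟩

end generic

/-! The cones of injective families of bit sequences are solutions. -/

theorem pc_sol {W : Type} (r : W → ℕ → Bool) (hr : Function.Injective r) :
    EndIsPosRat (Multiplicative (pc (ro r))) := by
  have : Nonempty (Multiplicative (pc (ro r))) := ⟨Multiplicative.ofAdd (pe (ro r) none)⟩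
  apply char_pos_backward
  · intro n
    have hn : ((n : ℚ) + 1) ≠ 0 := by positivity
    constructor
    · intro v w h
      have h1 := congrArg (fun x : Multiplicative (pc (ro r)) =>
        (x.toAdd : Option W →₀ ℚ[X])) h
      simp only [ppow_pc] at h1
      apply Multiplicative.toAdd.injective
      apply Subtype.ext
      exact smul_right_injective _ hn h1
    · intro v
      have hmem : ((n : ℚ) + 1)⁻¹ • (v.toAdd : Option W →₀ ℚ[X]) ∈ pc (ro r) := by
        refine ⟨smul_mem_cone v.toAdd.2.1 (by positivity), ?_⟩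
        exact smul_ne_zero (inv_ne_zero hn) v.toAdd.2.2
      refine ⟨Multiplicative.ofAdd ⟨_, hmem⟩, ?_⟩
      apply Multiplicative.toAdd.injective
      apply Subtype.ext
      rw [ppow_pc]
      change ((n : ℚ) + 1) • (((n : ℚ) + 1)⁻¹ • (v.toAdd : Option W →₀ ℚ[X])) = _
      rw [smul_smul, mul_inv_cancel₀ hn, one_smul]
  · intro v h
    have h1 := congrArg (fun x : Multiplicative (pc (ro r)) => (x.toAdd : Option W →₀ ℚ[X])) h
    simp only [toAdd_mul, AddMemClass.coe_add] at h1
    exact v.toAdd.2.2 (add_eq_left.1 h1)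
  · intro φ
    obtain ⟨T, hT⟩ := extend_pc φ
    obtain ⟨q, hq, hq1⟩ := cone_self r hr T
    have hval : ∀ v, ((φ v).toAdd : Option W →₀ ℚ[X]) = q • (v.toAdd : Option W →₀ ℚ[X]) := by
      intro v
      rw [hT, hq1]
    have hq0 : q ≠ 0 := by
      intro h
      have h1 := hval (Multiplicative.ofAdd (pe (ro r) none))
      rw [h, zero_smul] at h1
      exact (φ (Multiplicative.ofAdd (pe (ro r) none))).toAdd.2.2 h1
    obtain ⟨m, n, hmn⟩ := rat_as_quot (lt_of_le_of_ne hq (Ne.symm hq0))
    refine ⟨m, n, fun v => ?_⟩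
    apply Multiplicative.toAdd.injective
    apply Subtype.ext
    rw [ppow_pc, ppow_pc, hval, smul_smul, hmn]

theorem cn_sol {W : Type} (r : W → ℕ → Bool) (hr : Function.Injective r) :
    EndIsNonnegRat (Multiplicative (ro r).Cn) := by
  refine char_nonneg_backward ?_ (Multiplicative.ofAdd 0) ?_ ?_ ?_ ?_
  · intro n
    have hn : ((n : ℚ) + 1) ≠ 0 := by positivity
    constructor
    · intro v w h
      have h1 := congrArg (fun x : Multiplicative (ro r).Cn => (x.toAdd : Option W →₀ ℚ[X])) h
      simp only [ppow_cn] at h1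
      apply Multiplicative.toAdd.injective
      apply Subtype.ext
      exact smul_right_injective _ hn h1
    · intro v
      have hmem : ((n : ℚ) + 1)⁻¹ • (v.toAdd : Option W →₀ ℚ[X]) ∈ (ro r).Cn :=
        smul_mem_cone v.toAdd.2 (by positivity)
      refine ⟨Multiplicative.ofAdd ⟨_, hmem⟩, ?_⟩
      apply Multiplicative.toAdd.injective
      apply Subtype.ext
      rw [ppow_cn]
      change ((n : ℚ) + 1) • (((n : ℚ) + 1)⁻¹ • (v.toAdd : Option W →₀ ℚ[X])) = _
      rw [smul_smul, mul_inv_cancel₀ hn, one_smul]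
  · intro v
    apply Multiplicative.toAdd.injective
    rw [toAdd_mul, toAdd_ofAdd, add_zero]
  · intro v h
    have h1 := congrArg (fun x : Multiplicative (ro r).Cn => (x.toAdd : Option W →₀ ℚ[X])) h
    simp only [toAdd_mul, AddSubmonoid.coe_add] at h1
    apply Multiplicative.toAdd.injective
    apply Subtype.ext
    exact add_eq_left.1 h1
  · refine ⟨Multiplicative.ofAdd ((ro r).e none), ?_⟩
    intro h
    have h1 := congrArg (fun x : Multiplicative (ro r).Cn => (x.toAdd : Option W →₀ ℚ[X])) h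
    exact (pe (ro r) none).2.2 h1
  · intro φ
    obtain ⟨T, hT⟩ := extend_cn φ
    obtain ⟨q, hq, hq1⟩ := cone_self r hr T
    have hval : ∀ v, ((φ v).toAdd : Option W →₀ ℚ[X]) = q • (v.toAdd : Option W →₀ ℚ[X]) := by
      intro v
      rw [hT, hq1]
    rcases hq.eq_or_lt with hq0 | hq
    · left
      intro v
      apply Multiplicative.toAdd.injective
      apply Subtype.ext
      rw [hval, ← hq0, zero_smul]
      rfl
    · right
      obtain ⟨m, n, hmn⟩ := rat_as_quot hq
      refine ⟨m, n, fun v => ?_⟩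
      apply Multiplicative.toAdd.injective
      apply Subtype.ext
      rw [ppow_cn, ppow_cn, hval, smul_smul, hmn]

/-- A multiplicative map between positive cones exists only for contained sets of reals. -/
theorem pc_subset {W W' : Type} (r : W → ℕ → Bool) (r' : W' → ℕ → Bool)
    (hr' : Function.Injective r')
    (φ : Multiplicative (pc (ro r)) →ₙ* Multiplicative (pc (ro r'))) :
    Set.range r ⊆ Set.range r' := by
  obtain ⟨T, hT⟩ := extend_pc φ
  apply cone_subset r r' hr' T
  intro h
  have h1 := hT (Multiplicative.ofAdd (pe (ro r) none))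
  have h2 : (⟨(Multiplicative.ofAdd (pe (ro r) none)).toAdd,
      (Multiplicative.ofAdd (pe (ro r) none)).toAdd.2.1⟩ : (ro r).Cn) = (ro r).e none := rfl
  rw [h2, h] at h1
  exact (φ (Multiplicative.ofAdd (pe (ro r) none))).toAdd.2.2 h1

/-- An injective multiplicative map between cones exists only for contained sets of reals. -/
theorem cn_subset {W W' : Type} (r : W → ℕ → Bool) (r' : W' → ℕ → Bool)
    (hr' : Function.Injective r')
    (φ : Multiplicative (ro r).Cn →ₙ* Multiplicative (ro r').Cn)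
    (hφ : Function.Injective φ) :
    Set.range r ⊆ Set.range r' := by
  obtain ⟨T, hT⟩ := extend_cn φ
  apply cone_subset r r' hr' T
  intro h
  have h1 : φ (Multiplicative.ofAdd ((ro r).e none)) = φ (Multiplicative.ofAdd 0) := by
    apply Multiplicative.toAdd.injective
    rw [hT, hT, toAdd_ofAdd, toAdd_ofAdd, h, map_zero]
  have h2 := hφ h1
  have h3 := congrArg (fun x : Multiplicative (ro r).Cn => (x.toAdd : Option W →₀ ℚ[X])) h2
  exact (pe (ro r) none).2.2 h3

/-! Relabelling. -/

theorem cf_domCongr {P P' : Type} (e : P ≃ P') (k : ℕ) (v : P →₀ ℚ[X]) :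
    cf k (Finsupp.domLCongr (R := ℚ) e v) = Finsupp.domLCongr (R := ℚ) e (cf k v) := by
  ext y
  simp [cf_apply, Finsupp.domLCongr_apply, Finsupp.domCongr_apply]

theorem domCongr_mem_V {P P' : Type} {O : Ops P} {O' : Ops P'} (e : P ≃ P')
    (hD : ∀ i x, x ∈ O.D i ↔ e x ∈ O'.D i) (hf : ∀ i x, e (O.f i x) = O'.f i (e x))
    {v : P →₀ ℚ[X]} (hv : v ∈ O.V) : Finsupp.domLCongr (R := ℚ) e v ∈ O'.V := by
  obtain ⟨h1, h2⟩ := hv
  refine ⟨by rw [cf_domCongr, h1, map_zero], fun i => ?_⟩
  obtain ⟨a1, a2, a3, a4⟩ := h2 i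
  refine ⟨by rw [cf_domCongr, a1, map_zero], by rw [cf_domCongr, a2, map_zero], ?_, ?_⟩
  · intro x hx
    rw [cf_domCongr]
    have : e.symm x ∉ O.D i := by
      rw [hD, e.apply_symm_apply]
      exact hx
    have h3 := a3 _ this
    simpa [Finsupp.domLCongr_apply, Finsupp.domCongr_apply] using h3
  · rw [cf_domCongr, cf_domCongr, a4]
    have hmap : ∀ u : P →₀ ℚ, Finsupp.domLCongr (R := ℚ) e u = Finsupp.mapDomain e u := by
      intro u
      rw [Finsupp.domLCongr_apply, Finsupp.domCongr_apply, Finsupp.equivMapDomain_eq_mapDomain]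
    rw [hmap, hmap, ← Finsupp.mapDomain_comp, ← Finsupp.mapDomain_comp]
    congr 1
    funext x
    exact hf i x

theorem domCongr_mem_Cn {P P' : Type} {O : Ops P} {O' : Ops P'} (e : P ≃ P')
    (hD : ∀ i x, x ∈ O.D i ↔ e x ∈ O'.D i) (hf : ∀ i x, e (O.f i x) = O'.f i (e x))
    {v : P →₀ ℚ[X]} (hv : v ∈ O.Cn) : Finsupp.domLCongr (R := ℚ) e v ∈ O'.Cn := by
  refine ⟨domCongr_mem_V e hD hf hv.1, fun x => ?_⟩
  have := hv.2 (e.symm x)
  simpa [Finsupp.domLCongr_apply, Finsupp.domCongr_apply] using this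

theorem ro_D {W W' : Type} (r : W → ℕ → Bool) (r' : W' → ℕ → Bool) (e : W ≃ W')
    (he : ∀ w, r' (e w) = r w) (i : ℕ) (x : Option W) :
    x ∈ (ro r).D i ↔ Equiv.optionCongr e x ∈ (ro r').D i := by
  match i with
  | 0 => exact ⟨fun _ => trivial, fun _ => trivial⟩
  | 1 =>
    change x = none ↔ Equiv.optionCongr e x = none
    cases x <;> simp
  | k + 2 =>
    constructor
    · rintro ⟨w, rfl, hw⟩
      exact ⟨e w, by simp, by rw [he]; exact hw⟩
    · rintro ⟨w', hw', h⟩
      cases x with
      | none => simp at hw'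
      | some w =>
        have : e w = w' := by simpa using hw'
        refine ⟨w, rfl, ?_⟩
        rw [← he, this]
        exact h

theorem ro_f {W W' : Type} (r : W → ℕ → Bool) (r' : W' → ℕ → Bool) (e : W ≃ W') (i : ℕ)
    (x : Option W) :
    Equiv.optionCongr e ((ro r).f i x) = (ro r').f i (Equiv.optionCongr e x) := by
  match i with
  | 0 => rfl
  | _ + 1 => rfl

/-- Equal sets of reals give isomorphic positive cones. -/
theorem pc_iso {W W' : Type} (r : W → ℕ → Bool) (r' : W' → ℕ → Bool)
    (e : W ≃ W') (he : ∀ w, r' (e w) = r w) :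
    Nonempty (Multiplicative (pc (ro r)) ≃* Multiplicative (pc (ro r'))) := by
  have he' : ∀ w, r (e.symm w) = r' w := by
    intro w
    rw [← he, e.apply_symm_apply]
  let L := Finsupp.domLCongr (R := ℚ) (M := ℚ[X]) (Equiv.optionCongr e)
  have hL : ∀ v, v ∈ pc (ro r) → L v ∈ pc (ro r') := fun v hv =>
    ⟨domCongr_mem_Cn _ (ro_D r r' e he) (ro_f r r' e) hv.1, fun h => hv.2 (by simpa using h)⟩
  have hL' : ∀ v, v ∈ pc (ro r') → L.symm v ∈ pc (ro r) := fun v hv => by
    have h1 : L.symm v = Finsupp.domLCongr (R := ℚ) (M := ℚ[X]) (Equiv.optionCongr e.symm) v := by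
      ext1 x
      cases x <;> simp [L, Finsupp.domLCongr_apply, Finsupp.domLCongr_symm,
        Finsupp.domCongr_apply]
    refine ⟨?_, fun h => hv.2 (by simpa using h)⟩
    rw [h1]
    exact domCongr_mem_Cn _ (ro_D r' r e.symm he') (ro_f r' r e.symm) hv.1
  refine ⟨
    { toFun := fun v => Multiplicative.ofAdd ⟨L v.toAdd, hL _ v.toAdd.2⟩
      invFun := fun v => Multiplicative.ofAdd ⟨L.symm v.toAdd, hL' _ v.toAdd.2⟩
      left_inv := fun v => ?_
      right_inv := fun v => ?_
      map_mul' := fun v w => ?_ }⟩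
  · apply Multiplicative.toAdd.injective
    apply Subtype.ext
    simp
  · apply Multiplicative.toAdd.injective
    apply Subtype.ext
    simp
  · apply Multiplicative.toAdd.injective
    apply Subtype.ext
    simp

/-- Equal sets of reals give isomorphic cones. -/
theorem cn_iso {W W' : Type} (r : W → ℕ → Bool) (r' : W' → ℕ → Bool)
    (e : W ≃ W') (he : ∀ w, r' (e w) = r w) :
    Nonempty (Multiplicative (ro r).Cn ≃* Multiplicative (ro r').Cn) := by
  have he' : ∀ w, r (e.symm w) = r' w := by
    intro w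
    rw [← he, e.apply_symm_apply]
  let L := Finsupp.domLCongr (R := ℚ) (M := ℚ[X]) (Equiv.optionCongr e)
  have hL : ∀ v, v ∈ (ro r).Cn → L v ∈ (ro r').Cn := fun v hv =>
    domCongr_mem_Cn _ (ro_D r r' e he) (ro_f r r' e) hv
  have hL' : ∀ v, v ∈ (ro r').Cn → L.symm v ∈ (ro r).Cn := fun v hv => by
    have h1 : L.symm v = Finsupp.domLCongr (R := ℚ) (M := ℚ[X]) (Equiv.optionCongr e.symm) v := by
      ext1 x
      cases x <;> simp [L, Finsupp.domLCongr_apply, Finsupp.domLCongr_symm,
        Finsupp.domCongr_apply]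
    rw [h1]
    exact domCongr_mem_Cn _ (ro_D r' r e.symm he') (ro_f r' r e.symm) hv
  refine ⟨
    { toFun := fun v => Multiplicative.ofAdd ⟨L v.toAdd, hL _ v.toAdd.2⟩
      invFun := fun v => Multiplicative.ofAdd ⟨L.symm v.toAdd, hL' _ v.toAdd.2⟩
      left_inv := fun v => ?_
      right_inv := fun v => ?_
      map_mul' := fun v w => ?_ }⟩
  · apply Multiplicative.toAdd.injective
    apply Subtype.ext
    simp
  · apply Multiplicative.toAdd.injective
    apply Subtype.ext
    simp
  · apply Multiplicative.toAdd.injective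
    apply Subtype.ext
    simp

end

end Pool.Agent.H85.EQ
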