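import Pool.Agent.H85.EQ.Coan
import Pool.Agent.H38.EndQ.DefsT

/-!
Isomorphism of solutions is a Borel relation.
-/

open MeasureTheory

namespace Pool.Agent.H85.EQ

noncomputable section

/-- Two tables are isomorphic. -/
def isoT (s t : ℕ → ℕ → ℕ) : Prop :=
  ∃ g h : ℕ → ℕ, (∀ i, h (g i) = i) ∧ (∀ i, g (h i) = i) ∧ ∀ a b, g (s a b) = t (g a) (g b)

section

variable {X : Type*} [MeasurableSpace X]

/-- The isomorphisms between the tables of `x` and `y` with a prescribed value at `j`, together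
with their inverses. -/
def graphSet (f : X → ℕ → ℕ → ℕ) (P : X → ℕ → Prop) (j k : ℕ) :
    Set ((X × X) × ((ℕ → ℕ) × (ℕ → ℕ))) :=
  {z | P z.1.1 j ∧ ((∀ i, z.2.2 (z.2.1 i) = i) ∧ (∀ i, z.2.1 (z.2.2 i) = i)) ∧
    (∀ a b, z.2.1 (f z.1.1 a b) = f z.1.2 (z.2.1 a) (z.2.1 b)) ∧ z.2.1 j = k}

theorem meas_graphSet {f : X → ℕ → ℕ → ℕ} (hf : ∀ i j, Measurable fun x => f x i j)
    {P : X → ℕ → Prop} (hP : ∀ j, Measurable fun x => P x j) (j k : ℕ) :
    MeasurableSet (graphSet f P j k) := by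
  have h1 : ∀ a b, Measurable fun z : (X × X) × ((ℕ → ℕ) × (ℕ → ℕ)) => f z.1.1 a b :=
    fun a b => (hf a b).comp (measurable_fst.comp measurable_fst)
  have h2 : ∀ a b, Measurable fun z : (X × X) × ((ℕ → ℕ) × (ℕ → ℕ)) => f z.1.2 a b :=
    fun a b => (hf a b).comp (measurable_snd.comp measurable_fst)
  have h3 : ∀ i, Measurable fun z : (X × X) × ((ℕ → ℕ) × (ℕ → ℕ)) => z.2.1 i :=
    fun i => (measurable_pi_apply i).comp (measurable_fst.comp measurable_snd)
  have h4 : ∀ i, Measurable fun z : (X × X) × ((ℕ → ℕ) × (ℕ → ℕ)) => z.2.2 i :=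
    fun i => (measurable_pi_apply i).comp (measurable_snd.comp measurable_snd)
  have h5 : Measurable fun z : (X × X) × ((ℕ → ℕ) × (ℕ → ℕ)) => P z.1.1 j :=
    (hP j).comp (measurable_fst.comp measurable_fst)
  refine measurableSet_setOfPred.2 (h5.and (Measurable.and (Measurable.and ?_ ?_)
    (Measurable.and ?_ ?_)))
  · exact Measurable.forall fun i => meas_eq
      (ev1 (F := fun (z : (X × X) × ((ℕ → ℕ) × (ℕ → ℕ))) => z.2.2) h4 (h3 i)) measurable_const
  · exact Measurable.forall fun i => meas_eq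
      (ev1 (F := fun (z : (X × X) × ((ℕ → ℕ) × (ℕ → ℕ))) => z.2.1) h3 (h4 i)) measurable_const
  · exact Measurable.forall fun a => Measurable.forall fun b => meas_eq
      (ev1 (F := fun (z : (X × X) × ((ℕ → ℕ) × (ℕ → ℕ))) => z.2.1) h3 (h1 a b))
      (ev2 (F := fun (z : (X × X) × ((ℕ → ℕ) × (ℕ → ℕ))) => f z.1.2) h2 (h3 a) (h3 b))
  · exact meas_eq (h3 j) measurable_const

/-- If an automorphism of the table of `x` is determined by its value at the points of `P x`, then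
isomorphism is a Borel relation. -/
theorem upper_gen [StandardBorelSpace X] {f : X → ℕ → ℕ → ℕ}
    (hf : ∀ i j, Measurable fun x => f x i j)
    {P : X → ℕ → Prop} (hP : ∀ j, Measurable fun x => P x j) (hex : ∀ x, ∃ j, P x j)
    (huniq : ∀ x j, P x j → ∀ φ ψ : ℕ → ℕ, (∀ i, ψ (φ i) = i) → (∀ i, φ (ψ i) = i) →
      endT (f x) φ → φ j = j → ∀ i, φ i = i) :
    MeasurableSet {p : X × X | isoT (f p.1) (f p.2)} := by
  have key : {p : X × X | isoT (f p.1) (f p.2)} =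
      ⋃ j : ℕ, ⋃ k : ℕ, Prod.fst '' graphSet f P j k := by
    ext p
    simp only [Set.mem_iUnion]
    constructor
    · rintro ⟨g, h, h1, h2, h3⟩
      obtain ⟨j, hj⟩ := hex p.1
      exact ⟨j, g j, (p, (g, h)), ⟨hj, ⟨h1, h2⟩, h3, rfl⟩, rfl⟩
    · rintro ⟨j, k, ⟨p', ⟨g, h⟩⟩, ⟨_, ⟨h1, h2⟩, h3, _⟩, rfl⟩
      exact ⟨g, h, h1, h2, h3⟩
  rw [key]
  refine MeasurableSet.iUnion fun j => MeasurableSet.iUnion fun k => ?_
  refine (meas_graphSet hf hP j k).image_of_measurable_injOn measurable_fst ?_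
  rintro ⟨p, ⟨g, h⟩⟩ ⟨hj, ⟨h1, h2⟩, h3, h4⟩ ⟨p', ⟨g', h'⟩⟩ ⟨_, ⟨h1', h2'⟩, h3', h4'⟩ hpp
  change p = p' at hpp
  subst hpp
  change ∀ i, h (g i) = i at h1
  change ∀ i, g (h i) = i at h2
  change ∀ i, h' (g' i) = i at h1'
  change ∀ i, g' (h' i) = i at h2'
  change ∀ a b, g (f p.1 a b) = f p.2 (g a) (g b) at h3
  change ∀ a b, g' (f p.1 a b) = f p.2 (g' a) (g' b) at h3'
  change g j = k at h4
  change g' j = k at h4'
  have h5 : ∀ i, h' (g i) = i := by
    refine huniq p.1 j hj (fun i => h' (g i)) (fun i => h (g' i)) (fun i => ?_) (fun i => ?_)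
      (fun a b => ?_) ?_
    · rw [h2', h1]
    · rw [h2, h1']
    · change h' (g (f p.1 a b)) = f p.1 (h' (g a)) (h' (g b))
      have h6 : g' (f p.1 (h' (g a)) (h' (g b))) = g (f p.1 a b) := by
        rw [h3', h2', h2', h3]
      rw [← h6, h1']
    · rw [h4, ← h4', h1']
  have h7 : g = g' := by
    funext i
    calc g i = g' (h' (g i)) := (h2' (g i)).symm
      _ = g' i := by rw [h5 i]
  subst h7
  have h8 : h = h' := by
    funext i
    calc h i = h (g (h' i)) := by rw [h2' i]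
      _ = h' i := h1 (h' i)
  rw [h8]

end

/-! The two cases. -/

theorem iso_gen {K : Type} (m n : CommSemigroup K) :
    Nonempty (@MulEquiv K K m.toSemigroup.toMul n.toSemigroup.toMul) ↔
      ∃ g h : K → K, (∀ i, h (g i) = i) ∧ (∀ i, g (h i) = i) ∧
        ∀ a b, g (tk m a b) = tk n (g a) (g b) := by
  constructor
  · rintro ⟨e⟩
    exact ⟨@MulEquiv.toEquiv K K m.toSemigroup.toMul n.toSemigroup.toMul e,
      (@MulEquiv.toEquiv K K m.toSemigroup.toMul n.toSemigroup.toMul e).symm,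
      (@MulEquiv.toEquiv K K m.toSemigroup.toMul n.toSemigroup.toMul e).symm_apply_apply,
      (@MulEquiv.toEquiv K K m.toSemigroup.toMul n.toSemigroup.toMul e).apply_symm_apply,
      fun a b => @MulEquiv.map_mul' K K m.toSemigroup.toMul n.toSemigroup.toMul e a b⟩
  · rintro ⟨g, h, h1, h2, h3⟩
    exact ⟨@MulEquiv.mk K K m.toSemigroup.toMul n.toSemigroup.toMul ⟨g, h, h1, h2⟩ h3⟩

theorem iso_pos_iff {s t : ℕ → ℕ → ℕ} (hs : s ∈ Pool.Agent.H38.EndQ.PosTables)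
    (ht : t ∈ Pool.Agent.H38.EndQ.PosTables) :
    (∃ m n : Pool.Agent.H38.EndQ.SolPos ℕ, Pool.Agent.H38.EndQ.table m.1 = s ∧
      Pool.Agent.H38.EndQ.table n.1 = t ∧ (Pool.Agent.H38.EndQ.isoPos ℕ).r m n) ↔ isoT s t := by
  constructor
  · rintro ⟨m, n, rfl, rfl, he⟩
    exact (iso_gen m.1 n.1).1 he
  · intro h
    obtain ⟨m, rfl⟩ := hs
    obtain ⟨n, rfl⟩ := ht
    exact ⟨m, n, rfl, rfl, (iso_gen m.1 n.1).2 h⟩

theorem iso_nonneg_iff {s t : ℕ → ℕ → ℕ} (hs : s ∈ Pool.Agent.H38.EndQ.NonnegTables)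
    (ht : t ∈ Pool.Agent.H38.EndQ.NonnegTables) :
    (∃ m n : Pool.Agent.H38.EndQ.SolNonneg ℕ, Pool.Agent.H38.EndQ.table m.1 = s ∧
      Pool.Agent.H38.EndQ.table n.1 = t ∧ (Pool.Agent.H38.EndQ.isoNonneg ℕ).r m n) ↔
      isoT s t := by
  constructor
  · rintro ⟨m, n, rfl, rfl, he⟩
    exact (iso_gen m.1 n.1).1 he
  · intro h
    obtain ⟨m, rfl⟩ := hs
    obtain ⟨n, rfl⟩ := ht
    exact ⟨m, n, rfl, rfl, (iso_gen m.1 n.1).2 h⟩

theorem fix_pos_gen {K : Type} [m : CommSemigroup K]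
    (hm : Pool.Agent.H38.EndQ.EndIsPosRat K) (j : K)
    (φ : K → K) (hφ : endT (tk m) φ) (hj : φ j = j) (i : K) : φ i = i := by
  obtain ⟨h1, h2, h3⟩ :=
    @Pool.Agent.H38.EndQ.char_pos_forward K m hm
  obtain ⟨a, b, hab⟩ := h3 ⟨φ, hφ⟩
  have h4 : Pool.Agent.H38.EndQ.ppow j b = Pool.Agent.H38.EndQ.ppow j a := by
    have := hab j
    change Pool.Agent.H38.EndQ.ppow (φ j) b = Pool.Agent.H38.EndQ.ppow j a at this
    rwa [hj] at this
  have h5 : b = a := Pool.Agent.H38.EndQ.exponent_unique h2 j b a h4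
  subst h5
  exact (h1 b).1 (hab i)

theorem fix_pos {t : ℕ → ℕ → ℕ} (ht : t ∈ Pool.Agent.H38.EndQ.PosTables) (j : ℕ)
    (φ : ℕ → ℕ) (hφ : endT t φ) (hj : φ j = j) (i : ℕ) : φ i = i := by
  obtain ⟨m, rfl⟩ := ht
  exact @fix_pos_gen ℕ m.1 m.2 j φ hφ hj i

theorem fix_nonneg_gen {K : Type} [m : CommSemigroup K]
    (hm : Pool.Agent.H38.EndQ.EndIsNonnegRat K) (j : K)
    (hne : ¬ ∀ i, tk m i j = i)
    (φ : K → K) (hinj : Function.Injective φ) (hφ : endT (tk m) φ) (hj : φ j = j) (i : K) :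
    φ i = i := by
  obtain ⟨h1, e, h2, h3, ⟨c, hc⟩, h5⟩ := @Pool.Agent.H38.EndQ.char_nonneg_forward K m hm
  have hje : j ≠ e := fun h => hne (by
    subst h
    exact h2)
  rcases h5 ⟨φ, hφ⟩ with h | ⟨a, b, hab⟩
  · exfalso
    have h6 : φ c = e := h c
    have h7 : φ e = e := h e
    exact hc (hinj (h6.trans h7.symm))
  · have h4 : Pool.Agent.H38.EndQ.ppow j b = Pool.Agent.H38.EndQ.ppow j a := by
      have := hab j
      change Pool.Agent.H38.EndQ.ppow (φ j) b = Pool.Agent.H38.EndQ.ppow j a at this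
      rwa [hj] at this
    have hpe : ∀ n, Pool.Agent.H38.EndQ.ppow e n = e := by
      intro n
      induction n with
      | zero => rfl
      | succ n ih => rw [Pool.Agent.H38.EndQ.ppow, ih, h2]
    have h8 : b = a := by
      by_contra hba
      obtain ⟨n, hn⟩ := Pool.Agent.H38.EndQ.exists_idem j b a h4 hba
      have h9 := h3 _ hn
      exact hje ((h1 n).1 (h9.trans (hpe n).symm))
    subst h8
    exact (h1 b).1 (hab i)

theorem fix_nonneg {t : ℕ → ℕ → ℕ} (ht : t ∈ Pool.Agent.H38.EndQ.NonnegTables) (j : ℕ)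
    (hne : ¬ ∀ i, t i j = i)
    (φ : ℕ → ℕ) (hinj : Function.Injective φ) (hφ : endT t φ) (hj : φ j = j) (i : ℕ) :
    φ i = i := by
  obtain ⟨m, rfl⟩ := ht
  exact @fix_nonneg_gen ℕ m.1 m.2 j hne φ hinj hφ hj i

/-- For a measurable family of tables of solutions, isomorphism is a Borel relation, positive
case. -/
theorem upper_pos {X : Type*} [MeasurableSpace X] [StandardBorelSpace X] (f : X → ℕ → ℕ → ℕ)
    (hf : Measurable f) (hs : ∀ x, f x ∈ Pool.Agent.H38.EndQ.PosTables) :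
    MeasurableSet {p : X × X | ∃ m n : Pool.Agent.H38.EndQ.SolPos ℕ,
      Pool.Agent.H38.EndQ.table m.1 = f p.1 ∧ Pool.Agent.H38.EndQ.table n.1 = f p.2 ∧
        (Pool.Agent.H38.EndQ.isoPos ℕ).r m n} := by
  have hf' : ∀ i j, Measurable fun x => f x i j := fun i j => (hT i j).comp hf
  have h : {p : X × X | ∃ m n : Pool.Agent.H38.EndQ.SolPos ℕ,
      Pool.Agent.H38.EndQ.table m.1 = f p.1 ∧ Pool.Agent.H38.EndQ.table n.1 = f p.2 ∧
        (Pool.Agent.H38.EndQ.isoPos ℕ).r m n} = {p : X × X | isoT (f p.1) (f p.2)} := by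
    ext p
    exact iso_pos_iff (hs p.1) (hs p.2)
  rw [h]
  exact upper_gen hf' (P := fun _ _ => True) (fun _ => measurable_const) (fun _ => ⟨0, trivial⟩)
    fun x j _ φ _ _ _ hφ hj => fix_pos (hs x) j φ hφ hj

/-- For a measurable family of tables of solutions, isomorphism is a Borel relation, nonnegative
case. -/
theorem upper_nonneg {X : Type*} [MeasurableSpace X] [StandardBorelSpace X]
    (f : X → ℕ → ℕ → ℕ)
    (hf : Measurable f) (hs : ∀ x, f x ∈ Pool.Agent.H38.EndQ.NonnegTables) :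
    MeasurableSet {p : X × X | ∃ m n : Pool.Agent.H38.EndQ.SolNonneg ℕ,
      Pool.Agent.H38.EndQ.table m.1 = f p.1 ∧ Pool.Agent.H38.EndQ.table n.1 = f p.2 ∧
        (Pool.Agent.H38.EndQ.isoNonneg ℕ).r m n} := by
  have hf' : ∀ i j, Measurable fun x => f x i j := fun i j => (hT i j).comp hf
  have h : {p : X × X | ∃ m n : Pool.Agent.H38.EndQ.SolNonneg ℕ,
      Pool.Agent.H38.EndQ.table m.1 = f p.1 ∧ Pool.Agent.H38.EndQ.table n.1 = f p.2 ∧
        (Pool.Agent.H38.EndQ.isoNonneg ℕ).r m n} = {p : X × X | isoT (f p.1) (f p.2)} := by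
    ext p
    exact iso_nonneg_iff (hs p.1) (hs p.2)
  rw [h]
  refine upper_gen hf' (P := fun x j => ¬ ∀ i, f x i j = i) (fun j => ?_) (fun x => ?_)
    fun x j hj φ ψ h1 _ hφ hfix => fix_nonneg (hs x) j hj φ ?_ hφ hfix
  · exact (Measurable.forall fun i => meas_eq (hf' i j) measurable_const).not
  · by_contra hcon
    push Not at hcon
    obtain ⟨m, hm⟩ := hs x
    have hc : ∀ i, m.1.toSemigroup.toMul.mul 0 i = i := by
      intro i
      have h1 := hcon 0 i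
      have h2 : m.1.toSemigroup.toMul.mul 0 i = m.1.toSemigroup.toMul.mul i 0 := m.1.mul_comm 0 i
      rw [h2]
      rw [← hm] at h1
      exact h1
    have h3 := hcon 1 0
    rw [← hm] at h3
    have h4 : m.1.toSemigroup.toMul.mul 0 1 = 0 := h3
    rw [hc 1] at h4
    exact absurd h4 (by norm_num)
  · intro a b hab
    rw [← h1 a, ← h1 b, hab]

end

end Pool.Agent.H85.EQ
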